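import Pool.Agent.HypLin.Main

/-! # HYPLIN BAD: locked factor-critical sets -/

set_option autoImplicit false

namespace Pool.Agent.HypLin

open Finset Pool.Agent.Hyp5

variable {V : Type*} [DecidableEq V] {ι : Type*} [Fintype ι] [DecidableEq ι] {B : ι → Finset V}

open Classical in
/-- the inner triples missing `u` and all but one of its neighbours. -/
noncomputable def setU (B : ι → Finset V) (L : Finset V) (u : V) : Finset ι :=
  univ.filter (fun i => Inner B L i ∧ u ∉ B i ∧ (nbh B L u \ B i).card ≤ 1)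

open Classical in
/-- the inner triples missing `u` and containing all its neighbours. -/
noncomputable def setT (B : ι → Finset V) (L : Finset V) (u : V) : Finset ι :=
  univ.filter (fun i => Inner B L i ∧ u ∉ B i ∧ nbh B L u ⊆ B i)

theorem mem_setU {L : Finset V} {u : V} {i : ι} :
    i ∈ setU B L u ↔ Inner B L i ∧ u ∉ B i ∧ (nbh B L u \ B i).card ≤ 1 := by
  classical
  unfold setU
  rw [mem_filter]
  exact ⟨fun h => h.2, fun h => ⟨mem_univ _, h⟩⟩

theorem mem_setT {L : Finset V} {u : V} {i : ι} :
    i ∈ setT B L u ↔ Inner B L i ∧ u ∉ B i ∧ nbh B L u ⊆ B i := by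
  classical
  unfold setT
  rw [mem_filter]
  exact ⟨fun h => h.2, fun h => ⟨mem_univ _, h⟩⟩

theorem setT_card (hl : Lin B) {L : Finset V} {u : V} (h2 : 2 ≤ (nbh B L u).card) :
    (setT B L u).card ≤ 1 := by
  rw [card_le_one]
  intro i hi j hj
  exact hl.eq_of_card (mem_setT.1 hi).2.2 (mem_setT.1 hj).2.2 h2

theorem setT_sub {L : Finset V} {u : V} : setT B L u ⊆ setU B L u := by
  intro i hi
  obtain ⟨h1, h2, h3⟩ := mem_setT.1 hi
  refine mem_setU.2 ⟨h1, h2, ?_⟩
  rw [sdiff_eq_empty_iff_subset.2 h3]
  simp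

theorem through_card {L : Finset V} (hr : Reg B L) {u v : V} (hv : v ∈ nbh B L u) :
    (univ.filter (fun i => v ∈ B i ∧ u ∉ B i)).card ≤ 4 := by
  obtain ⟨h1, h2, j, h3, h4⟩ := mem_nbh.1 hv
  have h5 := hr v h1
  have h6 : univ.filter (fun i => v ∈ B i ∧ u ∉ B i) ⊆
      (univ.filter (fun i => v ∈ B i)).erase j := by
    intro i hi
    obtain ⟨-, h7, h8⟩ := mem_filter.1 hi
    refine mem_erase.2 ⟨?_, mem_filter.2 ⟨mem_univ _, h7⟩⟩
    rintro rfl
    exact h8 h3
  have h7 := card_le_card h6
  have hmj : j ∈ univ.filter (fun i => v ∈ B i) := mem_filter.2 ⟨mem_univ _, h4⟩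
  rw [card_erase_of_mem hmj, h5] at h7
  exact h7

theorem inter_card {L : Finset V} {u : V} {i : ι} (h : (nbh B L u \ B i).card ≤ 1) :
    (nbh B L u).card ≤ (nbh B L u ∩ B i).card + 1 := by
  have := card_sdiff_add_card_inter (nbh B L u) (B i)
  omega

/-- the charge at the point `u`. -/
theorem charge (hs : Small B) (hl : Lin B) {L : Finset V} (hr : Reg B L) {u : V} (hu : u ∈ L)
    (h2 : 2 ≤ (nbh B L u).card) :
    (setU B L u).card + 2 * (setT B L u).card ≤ 3 * sng B L u := by
  classical
  have hT := setT_card hl h2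
  have h5 := five_le hl hr hu
  have hUi : ∀ i ∈ setU B L u, (nbh B L u).card ≤ 4 := by
    intro i hi
    have h6 := inter_card (mem_setU.1 hi).2.2
    have h7 : (nbh B L u ∩ B i).card ≤ 3 := (card_le_card inter_subset_right).trans (hs i)
    omega
  by_cases h4 : 5 ≤ (nbh B L u).card
  · have hU : (setU B L u) = ∅ := by
      rw [Finset.eq_empty_iff_forall_notMem]
      intro i hi
      have := hUi i hi
      omega
    have hT' : (setT B L u) = ∅ := by
      rw [← subset_empty, ← hU]
      exact setT_sub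
    rw [hU, hT']
    simp
  by_cases hk4 : (nbh B L u).card = 4
  · have hU : (setU B L u).card ≤ 1 := by
      rw [card_le_one]
      intro i hi j hj
      have h6 := (mem_setU.1 hi).2.2
      have h7 := (mem_setU.1 hj).2.2
      have h8 : nbh B L u \ (B i ∩ B j) ⊆ (nbh B L u \ B i) ∪ (nbh B L u \ B j) := by
        intro z hz
        obtain ⟨hz1, hz2⟩ := mem_sdiff.1 hz
        by_cases hzi : z ∈ B i
        · refine mem_union_right _ (mem_sdiff.2 ⟨hz1, fun hzj => hz2 (mem_inter.2 ⟨hzi, hzj⟩)⟩)
        · exact mem_union_left _ (mem_sdiff.2 ⟨hz1, hzi⟩)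
      have h9 := card_le_card h8
      have h10 := card_union_le (nbh B L u \ B i) (nbh B L u \ B j)
      have h11 := card_sdiff_add_card_inter (nbh B L u) (B i ∩ B j)
      refine hl.eq_of_card (N := nbh B L u ∩ (B i ∩ B j))
        (inter_subset_right.trans inter_subset_left)
        (inter_subset_right.trans inter_subset_right) (by omega)
    have hT' : (setT B L u) = ∅ := by
      rw [Finset.eq_empty_iff_forall_notMem]
      intro i hi
      have h6 := card_le_card (mem_setT.1 hi).2.2
      have h7 := hs i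
      omega
    rw [hT']
    simp
    omega
  by_cases hk3 : (nbh B L u).card = 3
  · have hU : (setU B L u).card ≤ 4 := by
      have h6 : (setU B L u).card = ((setU B L u).image (fun i => nbh B L u \ B i)).card := by
        rw [card_image_of_injOn]
        intro i hi j hj hij
        simp only at hij
        have hi' := (mem_setU.1 (mem_coe.1 hi)).2.2
        have h8 : nbh B L u ∩ B i = nbh B L u ∩ B j := by
          ext z
          have h9 : z ∈ nbh B L u \ B i ↔ z ∈ nbh B L u \ B j := by rw [hij]
          rw [mem_sdiff, mem_sdiff] at h9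
          rw [mem_inter, mem_inter]
          tauto
        have h9 := inter_card hi'
        refine hl.eq_of_card (N := nbh B L u ∩ B i) inter_subset_right ?_ (by omega)
        rw [h8]
        exact inter_subset_right
      have h7 : (setU B L u).image (fun i => nbh B L u \ B i) ⊆
          insert ∅ ((nbh B L u).image (fun x => {x})) := by
        intro N hN
        obtain ⟨i, hi, rfl⟩ := mem_image.1 hN
        have h8 := (mem_setU.1 hi).2.2
        rcases Nat.lt_or_ge (nbh B L u \ B i).card 1 with h9 | h9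
        · have : nbh B L u \ B i = ∅ := by
            rw [← card_eq_zero]
            omega
          rw [this]
          exact mem_insert_self _ _
        · obtain ⟨x, hx⟩ := card_eq_one.1 (le_antisymm h8 h9)
          refine mem_insert_of_mem (mem_image.2 ⟨x, ?_, hx.symm⟩)
          have : x ∈ nbh B L u \ B i := by
            rw [hx]
            exact mem_singleton_self x
          exact (mem_sdiff.1 this).1
      rw [h6]
      refine (card_le_card h7).trans ((card_insert_le _ _).trans ?_)
      have := card_image_le (s := nbh B L u) (f := fun x => ({x} : Finset V))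
      omega
    omega
  · -- two neighbours
    have hk2 : (nbh B L u).card = 2 := by omega
    obtain ⟨x, y, hxy, hN⟩ := card_eq_two.1 hk2
    have hx : x ∈ nbh B L u := by rw [hN]; simp
    have hy : y ∈ nbh B L u := by rw [hN]; simp
    have hx4 := through_card hr hx
    have hy4 := through_card hr hy
    have h6 : setU B L u ⊆ univ.filter (fun i => x ∈ B i ∧ u ∉ B i) ∪
        univ.filter (fun i => y ∈ B i ∧ u ∉ B i) := by
      intro i hi
      obtain ⟨h7, h8, h9⟩ := mem_setU.1 hi
      by_cases hxi : x ∈ B i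
      · exact mem_union_left _ (mem_filter.2 ⟨mem_univ _, hxi, h8⟩)
      by_cases hyi : y ∈ B i
      · exact mem_union_right _ (mem_filter.2 ⟨mem_univ _, hyi, h8⟩)
      exfalso
      have h10 : nbh B L u ⊆ nbh B L u \ B i := by
        intro z hz
        refine mem_sdiff.2 ⟨hz, ?_⟩
        rw [hN] at hz
        rcases mem_insert.1 hz with h | h
        · rw [h]; exact hxi
        · rw [mem_singleton.1 h]; exact hyi
      have := card_le_card h10
      omega
    have h7 : setT B L u ⊆ univ.filter (fun i => x ∈ B i ∧ u ∉ B i) ∩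
        univ.filter (fun i => y ∈ B i ∧ u ∉ B i) := by
      intro i hi
      obtain ⟨h7, h8, h9⟩ := mem_setT.1 hi
      rw [mem_inter, mem_filter, mem_filter]
      exact ⟨⟨mem_univ _, h9 hx, h8⟩, ⟨mem_univ _, h9 hy, h8⟩⟩
    have h8 := card_le_card h6
    have h9 := card_le_card h7
    have h10 := card_union_add_card_inter (univ.filter (fun i => x ∈ B i ∧ u ∉ B i))
      (univ.filter (fun i => y ∈ B i ∧ u ∉ B i))
    omega

theorem FC.two_nbh {L : Finset V} (h : FC (gr B) L) (h3 : 3 ≤ L.card) {u : V} (hu : u ∈ L) :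
    2 ≤ (nbh B L u).card := by
  have h1 : 0 < (L.erase u).card := by
    rw [card_erase_of_mem hu]
    omega
  obtain ⟨w, hw⟩ := card_pos.1 h1
  obtain ⟨hwu, hwL⟩ := mem_erase.1 hw
  obtain ⟨f, hf⟩ := h.2 w hwL
  obtain ⟨h4, -, h5⟩ := hf u (mem_erase.2 ⟨hwu.symm, hu⟩)
  have h6 : f u ∈ L := mem_of_mem_erase h4
  obtain ⟨g, hg⟩ := h.2 (f u) h6
  obtain ⟨h7, -, h8⟩ := hg u (mem_erase.2 ⟨h5.ne, hu⟩)
  obtain ⟨h9, h10⟩ := mem_erase.1 h7
  refine one_lt_card.2 ⟨f u, mem_nbh.2 ⟨h6, h5⟩, g u, mem_nbh.2 ⟨h10, h8⟩, h9.symm⟩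

/-- for every inner triple of a bad set there are points as in the charging scheme. -/
theorem three_le (hs : Small B) {L : Finset V} (hr : Reg B L) (hPB : PB B L) (hPZ : PZ B L)
    (hfc : FC (gr B) L) (hlk : Lk B L) (hlt : 2 * NN B L < L.card + 27) {i : ι}
    (hi : Inner B L i) :
    3 ≤ ∑ u ∈ L, ((if i ∈ setU B L u then 1 else 0) + 2 * (if i ∈ setT B L u then 1 else 0)) := by
  classical
  -- a partial matching of the complement
  have hpart : Part B (L \ B i) 0 2 := by
    obtain ⟨a, b, c, hab, hac, hbc, he⟩ := card_eq_three.1 hi.2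
    have haL : a ∈ L := hi.1 (by rw [he]; simp)
    have hbL : b ∈ L := hi.1 (by rw [he]; simp)
    have hcL : c ∈ L := hi.1 (by rw [he]; simp)
    have hX : ({b, c} : Finset V) ⊆ L.erase a := by
      intro x hx
      rcases mem_insert.1 hx with h | h
      · rw [h]; exact mem_erase.2 ⟨hab.symm, hbL⟩
      · rw [mem_singleton.1 h]; exact mem_erase.2 ⟨hac.symm, hcL⟩
    obtain ⟨d, hd, hp⟩ := pm_remove (hfc.2 a haL) hX
    have h1 : L.erase a \ {b, c} = L \ B i := by
      rw [he]
      ext x
      simp only [mem_sdiff, mem_erase, mem_insert, mem_singleton]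
      tauto
    rw [h1] at hp
    have h2 : d ≤ 2 := by
      have : ({b, c} : Finset V).card ≤ 2 := card_le_two
      omega
    have h3 := hlk _ _ (Part.of_triple hi hp)
    obtain ⟨k, hk⟩ := hp.parity
    obtain ⟨l, hl⟩ := hfc.odd
    have h4 := card_sdiff_add_card_eq_card hi.1
    rw [hi.2] at h4
    have h5 : d = 2 := by omega
    rw [← h5]
    exact hp
  obtain ⟨A, F, ho⟩ := opt_triple hlk hi hpart (le_refl _)
  have hmain := main_ineq hs hr hPB hPZ hi ho
  have hFc := ho.card
  have hcl := ho.sys.closed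
  -- the singletons
  have hsing : F.card = (F.filter (fun C => 3 ≤ C.card)).card +
      (F.filter (fun C => ¬ 3 ≤ C.card)).card := (card_filter_add_card_filter_not _).symm
  have hone : ∀ C ∈ F.filter (fun C => ¬ 3 ≤ C.card), ∃ u, C = {u} := by
    intro C hC
    obtain ⟨h1, h2⟩ := mem_filter.1 hC
    obtain ⟨k, hk⟩ := (ho.sys.fc C h1).odd
    exact card_eq_one.1 (by omega)
  have hpt : ∀ u : V, {u} ∈ F → u ∈ L ∧ u ∉ B i ∧ nbh B L u \ B i ⊆ A := by
    intro u hu
    have h1 := hcl _ hu
    have h2 := mem_sdiff.1 (h1.1 (mem_singleton_self u))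
    have h3 := mem_sdiff.1 h2.1
    refine ⟨h3.1, h3.2, ?_⟩
    intro v hv
    obtain ⟨h4, h5⟩ := mem_sdiff.1 hv
    obtain ⟨h6, h7⟩ := mem_nbh.1 h4
    by_contra h8
    have h9 := h1.2 u (mem_singleton_self u) v (mem_sdiff.2 ⟨mem_sdiff.2 ⟨h6, h5⟩, h8⟩) h7
    rw [mem_singleton] at h9
    exact h7.ne h9.symm
  rcases Nat.eq_zero_or_pos A.card with hA | hA
  · -- one point
    have h1 : 0 < (F.filter (fun C => ¬ 3 ≤ C.card)).card := by omega
    obtain ⟨C, hC⟩ := card_pos.1 h1
    obtain ⟨u, rfl⟩ := hone C hC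
    obtain ⟨h2, h3, h4⟩ := hpt u (mem_filter.1 hC).1
    rw [card_eq_zero.1 hA, subset_empty, sdiff_eq_empty_iff_subset] at h4
    have h5 : i ∈ setT B L u := mem_setT.2 ⟨hi, h3, h4⟩
    have h6 : i ∈ setU B L u := setT_sub h5
    have h7 := single_le_sum (f := fun u => ((if i ∈ setU B L u then 1 else 0) +
      2 * (if i ∈ setT B L u then 1 else 0))) (fun _ _ => Nat.zero_le _) h2
    simp only [h5, h6, if_true] at h7
    exact h7
  · -- three points
    have h1 : 3 ≤ (F.filter (fun C => ¬ 3 ≤ C.card)).card := by omega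
    have h2 : F.filter (fun C => ¬ 3 ≤ C.card) ⊆
        (L.filter (fun u => i ∈ setU B L u)).image (fun u => {u}) := by
      intro C hC
      obtain ⟨u, rfl⟩ := hone C hC
      obtain ⟨h2, h3, h4⟩ := hpt u (mem_filter.1 hC).1
      refine mem_image.2 ⟨u, mem_filter.2 ⟨h2, mem_setU.2 ⟨hi, h3, ?_⟩⟩, rfl⟩
      have := card_le_card h4
      omega
    have h3 := (card_le_card h2).trans card_image_le
    have h4 : (L.filter (fun u => i ∈ setU B L u)).card =
        ∑ u ∈ L, (if i ∈ setU B L u then 1 else 0) := card_filter _ _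
    rw [sum_add_distrib]
    omega

/-- the bound for locked factor-critical sets, induction step. -/
theorem stepB (hs : Small B) (hl : Lin B) {L : Finset V} (hr : Reg B L) (hPB : PB B L)
    (hPZ : PZ B L) (hfc : FC (gr B) L) (hlk : Lk B L) (h3 : 3 ≤ L.card) :
    L.card + 27 ≤ 2 * NN B L := by
  classical
  by_contra hcon
  push Not at hcon
  obtain ⟨l, hlodd⟩ := hfc.odd
  have hN := NN_eq hs hr
  have h1 : 3 * trn B L 3 ≤ 3 * trn B L 1 := by
    have h2 : trn B L 3 = (univ.filter (fun i => Inner B L i)).card := by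
      unfold trn
      congr 1
      exact filter_congr (fun i _ => (inner_iff hs).symm)
    have h4 : 3 * (univ.filter (fun i => Inner B L i)).card ≤
        ∑ i ∈ univ.filter (fun i => Inner B L i), ∑ u ∈ L,
          ((if i ∈ setU B L u then 1 else 0) + 2 * (if i ∈ setT B L u then 1 else 0)) := by
      rw [mul_comm, ← smul_eq_mul]
      refine card_nsmul_le_sum _ _ _ (fun i hi => ?_)
      exact three_le hs hr hPB hPZ hfc hlk hcon (mem_filter.1 hi).2
    rw [sum_comm] at h4
    have h5 : ∑ u ∈ L, ∑ i ∈ univ.filter (fun i => Inner B L i),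
        ((if i ∈ setU B L u then 1 else 0) + 2 * (if i ∈ setT B L u then 1 else 0)) ≤
        ∑ u ∈ L, 3 * sng B L u := by
      refine sum_le_sum (fun u hu => ?_)
      have h6 := charge hs hl hr hu (FC.two_nbh hfc h3 hu)
      rw [sum_add_distrib, ← mul_sum, ← card_filter, ← card_filter]
      have h7 : (univ.filter (fun i => Inner B L i)).filter (fun i => i ∈ setU B L u) ⊆
          setU B L u := fun i hi => (mem_filter.1 hi).2
      have h8 : (univ.filter (fun i => Inner B L i)).filter (fun i => i ∈ setT B L u) ⊆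
          setT B L u := fun i hi => (mem_filter.1 hi).2
      have h9 := card_le_card h7
      have h10 := card_le_card h8
      omega
    rw [← mul_sum, sng_sum] at h5
    rw [h2]
    exact h4.trans h5
  have hdeg := deg_sum hs hl hr
  have hk : ∑ u ∈ L, (nbh B L u).card ≤ L.card * (L.card - 1) := by
    rw [← smul_eq_mul, ← sum_const]
    refine sum_le_sum (fun u hu => ?_)
    have := nbh_card_le (B := B) hu
    omega
  have hsmall : L.card = 3 ∨ L.card = 5 ∨ 7 ≤ L.card := by omega
  rcases hsmall with h | h | h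
  · rw [h] at hk hdeg hcon
    omega
  · rw [h] at hk hdeg hcon
    omega
  · omega

end Pool.Agent.HypLin
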