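import Pool.Agent.HypLin.ExOpt
import Pool.Agent.Hyp5.Greedy

/-! # HYPLIN COUNT: the number of empty places of the blocks meeting a set -/

set_option autoImplicit false

namespace Pool.Agent.HypLin

open Finset Pool.Agent.Hyp5

variable {V : Type*} [DecidableEq V] {ι : Type*} [Fintype ι] {B : ι → Finset V}

/-- the number of empty places of a block with `k` points. -/
def nn (k : ℕ) : ℕ := if k = 0 then 0 else 3 - k

/-- the number of empty places of the blocks meeting `W`. -/
def NN (B : ι → Finset V) (W : Finset V) : ℕ := ∑ i, nn (B i ∩ W).card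

theorem tr_le (hs : Small B) (i : ι) (W : Finset V) : (B i ∩ W).card ≤ 3 :=
  (card_le_card inter_subset_left).trans (hs i)

theorem tr_split (i : ι) {Q X : Finset V} (hX : X ⊆ Q) :
    (B i ∩ (Q \ X)).card + (B i ∩ X).card = (B i ∩ Q).card := by
  rw [← card_union_of_disjoint]
  · congr 1
    rw [← inter_union_distrib_left, sdiff_union_of_subset hX]
  · rw [Finset.disjoint_left]
    intro x hx hx'
    exact (mem_sdiff.1 (mem_inter.1 hx).2).2 (mem_inter.1 hx').2

open Classical in
theorem NN_sdiff (hs : Small B) {Q X : Finset V} (hX : X ⊆ Q) (hr : Reg B X) :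
    NN B (Q \ X) + 3 * (univ.filter (fun i => (B i ∩ Q).Nonempty ∧ B i ∩ Q ⊆ X)).card =
      NN B Q + 5 * X.card := by
  unfold NN
  rw [card_filter, mul_sum, ← sum_add_distrib, ← gr_inc hr, ← sum_add_distrib]
  refine sum_congr rfl (fun i _ => ?_)
  have h1 := tr_split (B := B) i hX
  have h2 := tr_le hs i Q
  have h3 : ((B i ∩ Q).Nonempty ∧ B i ∩ Q ⊆ X) ↔
      ((B i ∩ Q).card ≠ 0 ∧ (B i ∩ (Q \ X)).card = 0) := by
    rw [card_ne_zero, card_eq_zero, Finset.eq_empty_iff_forall_notMem]
    refine and_congr_right (fun _ => ?_)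
    constructor
    · intro h x hx
      obtain ⟨h4, h5⟩ := mem_inter.1 hx
      obtain ⟨h6, h7⟩ := mem_sdiff.1 h5
      exact h7 (h (mem_inter.2 ⟨h4, h6⟩))
    · intro h x hx
      by_contra hxX
      obtain ⟨h4, h5⟩ := mem_inter.1 hx
      exact h x (mem_inter.2 ⟨h4, mem_sdiff.2 ⟨h5, hxX⟩⟩)
  by_cases h4 : (B i ∩ Q).Nonempty ∧ B i ∩ Q ⊆ X
  · have h5 := h3.1 h4
    rw [if_pos h4]
    unfold nn
    split_ifs <;> omega
  · have h5 : ¬ ((B i ∩ Q).card ≠ 0 ∧ (B i ∩ (Q \ X)).card = 0) := fun h => h4 (h3.2 h)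
    rw [if_neg h4]
    unfold nn
    split_ifs <;> omega

theorem NN_closed {W P : Finset V} (h : Closed (gr B) W P) :
    NN B W = NN B P + NN B (W \ P) := by
  unfold NN
  rw [← sum_add_distrib]
  refine sum_congr rfl (fun i _ => ?_)
  have h1 := tr_split (B := B) i h.1
  by_cases h2 : (B i ∩ P).Nonempty
  · have h3 := block_closed h i h2
    have h4 : (B i ∩ (W \ P)).card = 0 := by
      rw [card_eq_zero, Finset.eq_empty_iff_forall_notMem]
      intro x hx
      obtain ⟨h4, h5⟩ := mem_inter.1 hx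
      obtain ⟨h6, h7⟩ := mem_sdiff.1 h5
      exact h7 (h3 (mem_inter.2 ⟨h4, h6⟩))
    rw [h4] at h1 ⊢
    rw [← h1]
    simp [nn]
  · have h3 : (B i ∩ P).card = 0 := by
      rw [card_eq_zero]
      exact not_nonempty_iff_eq_empty.1 h2
    rw [h3] at h1 ⊢
    rw [← h1]
    simp [nn]

theorem NN_family {W : Finset V} {F : Finset (Finset V)} (h : ∀ C ∈ F, Closed (gr B) W C)
    (hd : ∀ C ∈ F, ∀ D ∈ F, C ≠ D → Disjoint C D) :
    NN B W = ∑ C ∈ F, NN B C + NN B (W \ F.biUnion id) := by
  induction F using Finset.induction_on with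
  | empty => simp
  | insert C F hC ih =>
    have h1 := ih (fun D hD => h D (mem_insert_of_mem hD))
      (fun D hD E hE => hd D (mem_insert_of_mem hD) E (mem_insert_of_mem hE))
    have h2 : Closed (gr B) (W \ F.biUnion id) C := by
      refine (h C (mem_insert_self _ _)).mono ?_ sdiff_subset
      intro x hx
      refine mem_sdiff.2 ⟨(h C (mem_insert_self _ _)).1 hx, ?_⟩
      intro hx'
      obtain ⟨D, hD, hxD⟩ := mem_biUnion.1 hx'
      have hne : C ≠ D := by
        rintro rfl
        exact hC hD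
      exact Finset.disjoint_left.1 (hd C (mem_insert_self _ _) D (mem_insert_of_mem hD) hne) hx hxD
    have h3 := NN_closed h2
    have h4 : (W \ F.biUnion id) \ C = W \ (insert C F).biUnion id := by
      rw [biUnion_insert, sdiff_sdiff_left, union_comm]
      rfl
    rw [h1, h3, h4, sum_insert hC]
    ring

theorem NN_singleton (hs : Small B) {u : V} (hr : Reg B {u}) : NN B {u} = 10 := by
  have h1 := gr_inc hr
  unfold NN
  have h2 : ∑ i, nn (B i ∩ {u}).card = ∑ i, 2 * (B i ∩ {u}).card := by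
    refine sum_congr rfl (fun i _ => ?_)
    have h3 : (B i ∩ {u}).card ≤ 1 :=
      (card_le_card inter_subset_right).trans (by simp)
    unfold nn
    split_ifs <;> omega
  rw [h2, ← mul_sum, h1]
  simp

/-- the number of blocks whose trace on `L` has `k` points. -/
def trn (B : ι → Finset V) (L : Finset V) (k : ℕ) : ℕ :=
  (univ.filter (fun i => (B i ∩ L).card = k)).card

theorem NN_eq (hs : Small B) {L : Finset V} (hr : Reg B L) :
    2 * NN B L + 3 * trn B L 3 = 5 * L.card + 3 * trn B L 1 := by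
  unfold NN trn
  rw [← gr_inc hr, card_filter, card_filter, mul_sum, mul_sum, mul_sum, ← sum_add_distrib,
    ← sum_add_distrib]
  refine sum_congr rfl (fun i _ => ?_)
  have h1 := tr_le hs i L
  unfold nn
  split_ifs <;> omega

open Classical in
/-- the neighbours of `u` in `L`. -/
noncomputable def nbh (B : ι → Finset V) (L : Finset V) (u : V) : Finset V :=
  L.filter (fun v => (gr B).Adj u v)

theorem mem_nbh {L : Finset V} {u v : V} : v ∈ nbh B L u ↔ v ∈ L ∧ (gr B).Adj u v := by
  classical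
  unfold nbh
  exact mem_filter

theorem lin_deg (hl : Lin B) (L : Finset V) (u : V) :
    ∑ i ∈ univ.filter (fun i => u ∈ B i), ((B i ∩ L).erase u).card ≤ (nbh B L u).card := by
  classical
  rw [← card_biUnion]
  · refine card_le_card ?_
    intro x hx
    obtain ⟨i, hi, hxi⟩ := mem_biUnion.1 hx
    obtain ⟨h1, h2⟩ := mem_erase.1 hxi
    obtain ⟨h3, h4⟩ := mem_inter.1 h2
    exact mem_nbh.2 ⟨h4, fun h => h1 h.symm, i, (mem_filter.1 hi).2, h3⟩
  · intro i hi j hj hij
    rw [Function.onFun, Finset.disjoint_left]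
    intro x hx hx'
    obtain ⟨h1, h2⟩ := mem_erase.1 hx
    obtain ⟨h3, h4⟩ := mem_erase.1 hx'
    exact hij (hl i j u x (fun h => h1 h.symm) (mem_filter.1 hi).2 (mem_inter.1 h2).1
      (mem_filter.1 hj).2 (mem_inter.1 h4).1)

theorem deg_sum (hs : Small B) (hl : Lin B) {L : Finset V} (hr : Reg B L) :
    20 * L.card ≤ 2 * NN B L + 3 * ∑ u ∈ L, (nbh B L u).card := by
  have h1 : ∑ u ∈ L, ∑ i ∈ univ.filter (fun i => u ∈ B i), ((B i ∩ L).erase u).card =
      ∑ i, (B i ∩ L).card * ((B i ∩ L).card - 1) := by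
    have h2 : ∀ u ∈ L, ∑ i ∈ univ.filter (fun i => u ∈ B i), ((B i ∩ L).erase u).card =
        ∑ i, if u ∈ B i then (B i ∩ L).card - 1 else 0 := by
      intro u hu
      rw [← sum_filter]
      refine sum_congr rfl (fun i hi => ?_)
      exact card_erase_of_mem (mem_inter.2 ⟨(mem_filter.1 hi).2, hu⟩)
    rw [sum_congr rfl h2, sum_comm]
    refine sum_congr rfl (fun i _ => ?_)
    rw [← sum_filter, sum_const, smul_eq_mul, filter_mem_eq_inter, inter_comm]
  have h3 : ∑ u ∈ L, ∑ i ∈ univ.filter (fun i => u ∈ B i), ((B i ∩ L).erase u).card ≤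
      ∑ u ∈ L, (nbh B L u).card := sum_le_sum (fun u _ => lin_deg hl L u)
  have h4 := gr_inc hr
  have h5 : ∑ i, 4 * (B i ∩ L).card ≤
      ∑ i, (2 * nn (B i ∩ L).card + 3 * ((B i ∩ L).card * ((B i ∩ L).card - 1))) := by
    refine sum_le_sum (fun i _ => ?_)
    have h6 := tr_le hs i L
    obtain ⟨a, ha⟩ : ∃ a, (B i ∩ L).card = a := ⟨_, rfl⟩
    rw [ha] at h6 ⊢
    unfold nn
    interval_cases a <;> simp
  rw [sum_add_distrib, ← mul_sum, ← mul_sum, ← mul_sum, h4, ← h1] at h5
  unfold NN
  omega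

/-- the number of blocks with the trace `{u}` on `L`. -/
def sng (B : ι → Finset V) (L : Finset V) (u : V) : ℕ :=
  (univ.filter (fun i => B i ∩ L = {u})).card

theorem five_le (hl : Lin B) {L : Finset V} (hr : Reg B L) {u : V} (hu : u ∈ L) :
    5 ≤ sng B L u + (nbh B L u).card := by
  have h1 := lin_deg hl L u
  have h2 := hr u hu
  have h3 : (univ.filter (fun i => u ∈ B i)).card ≤
      ∑ i ∈ univ.filter (fun i => u ∈ B i), ((if B i ∩ L = {u} then 1 else 0) +
        ((B i ∩ L).erase u).card) := by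
    rw [card_eq_sum_ones]
    refine sum_le_sum (fun i hi => ?_)
    have hui : u ∈ B i ∩ L := mem_inter.2 ⟨(mem_filter.1 hi).2, hu⟩
    by_cases h4 : B i ∩ L = {u}
    · rw [if_pos h4]
      omega
    · rw [if_neg h4]
      have : ((B i ∩ L).erase u).Nonempty := by
        rw [nonempty_iff_ne_empty]
        intro h5
        apply h4
        rw [← insert_erase hui, h5]
        rfl
      have := card_pos.2 this
      omega
  rw [sum_add_distrib] at h3
  have h4 : ∑ i ∈ univ.filter (fun i => u ∈ B i), (if B i ∩ L = {u} then 1 else 0) ≤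
      sng B L u := by
    unfold sng
    rw [card_filter]
    exact sum_le_sum_of_subset (subset_univ _)
  omega

theorem sng_sum (L : Finset V) : ∑ u ∈ L, sng B L u = trn B L 1 := by
  unfold sng trn
  simp only [card_filter]
  rw [sum_comm]
  refine sum_congr rfl (fun i _ => ?_)
  by_cases h : (B i ∩ L).card = 1
  · rw [if_pos h]
    obtain ⟨u, hu⟩ := card_eq_one.1 h
    have huL : u ∈ L := by
      have : u ∈ B i ∩ L := by rw [hu]; simp
      exact (mem_inter.1 this).2
    rw [sum_eq_single u]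
    · rw [if_pos hu]
    · intro v _ hv
      rw [if_neg]
      intro h1
      rw [hu] at h1
      exact hv (singleton_injective h1).symm
    · intro h1
      exact absurd huL h1
  · rw [if_neg h]
    refine sum_eq_zero (fun u _ => ?_)
    rw [if_neg]
    intro h1
    rw [h1] at h
    simp at h

theorem nbh_card_le {L : Finset V} {u : V} (hu : u ∈ L) : (nbh B L u).card + 1 ≤ L.card := by
  have h1 : nbh B L u ⊆ L.erase u := by
    intro v hv
    obtain ⟨h1, h2⟩ := mem_nbh.1 hv
    exact mem_erase.2 ⟨fun h => h2.1 h.symm, h1⟩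
  have h2 := card_le_card h1
  rw [card_erase_of_mem hu] at h2
  have h3 : 1 ≤ L.card := card_pos.2 ⟨u, hu⟩
  omega

theorem inner_iff (hs : Small B) {L : Finset V} {i : ι} :
    Inner B L i ↔ (B i ∩ L).card = 3 := by
  constructor
  · rintro ⟨h1, h2⟩
    rw [inter_eq_left.2 h1, h2]
  · intro h
    have h1 : B i ∩ L = B i := by
      refine eq_of_subset_of_card_le inter_subset_left ?_
      rw [h]
      exact hs i
    refine ⟨inter_eq_left.1 h1, ?_⟩
    rw [← h1, h]

end Pool.Agent.HypLin
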