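import Pool.Agent.HypLin.Zed

/-! # HYPLIN COVER: covers of linear systems -/

set_option autoImplicit false

namespace Pool.Agent.HypLin

open Finset Pool.Agent.Hyp5

variable {V : Type*} [DecidableEq V] {ι : Type*} [Fintype ι] {B : ι → Finset V}

theorem NN_all (hs : Small B) {U : Finset V} (hr : Reg B U) (hU : ∀ i, B i ⊆ U) :
    NN B U + 5 * U.card = 3 * (univ.filter (fun i => (B i).Nonempty)).card := by
  unfold NN
  rw [← gr_inc hr, card_filter, mul_sum, ← sum_add_distrib]
  refine sum_congr rfl (fun i _ => ?_)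
  have h1 := hs i
  rw [inter_eq_left.2 (hU i)]
  by_cases h2 : (B i).Nonempty
  · have h3 := card_pos.2 h2
    rw [if_pos h2]
    unfold nn
    split_ifs <;> omega
  · have h3 : (B i).card = 0 := by
      rw [card_eq_zero]
      exact not_nonempty_iff_eq_empty.1 h2
    rw [if_neg h2, h3]
    rfl

/-- the theorem for blocks with at most three points. -/
theorem lin3 (hs : Small B) (hl : Lin B) (U : Finset V) (hr : Reg B U) (hU : ∀ i, B i ⊆ U) :
    ∃ T : Finset ι, U ⊆ T.biUnion B ∧
      45 * T.card ≤ 7 * (univ.filter (fun i => (B i).Nonempty)).card + 10 * U.card := by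
  classical
  obtain ⟨S, d, A, F, ho⟩ := exists_opt B U
  obtain ⟨T, hT, hTc⟩ := ho.part.cover hr
  refine ⟨T, hT, ?_⟩
  have hreg : ∀ {C : Finset V}, C ⊆ U → Reg B C := fun hC v hv => hr v (hC hv)
  have hSU : S.biUnion B ⊆ U := biUnion_sub ho.inner
  obtain ⟨Q', hQ'⟩ : ∃ Q', Q' = (U \ A) \ F.biUnion id := ⟨_, rfl⟩
  have hQU : Q' ⊆ U := by
    rw [hQ']
    exact sdiff_subset.trans sdiff_subset
  have hR : ((U \ S.biUnion B) \ A) \ F.biUnion id = Q' \ S.biUnion B := by
    rw [hQ']
    ext x
    simp only [mem_sdiff]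
    tauto
  have hSQ : S.biUnion B ⊆ Q' := by
    rw [hQ']
    intro x hx
    refine mem_sdiff.2 ⟨mem_sdiff.2 ⟨hSU hx, fun h => Finset.disjoint_left.1 ho.dA h hx⟩, ?_⟩
    intro h
    obtain ⟨C, hC, hxC⟩ := mem_biUnion.1 h
    exact Finset.disjoint_left.1 (ho.dF C hC) hxC hx
  have hrest := ho.rest
  have hrlk := ho.restLk
  rw [hR] at hrest hrlk
  have h3t : (S.biUnion B).card = 3 * S.card := by
    rw [card_biUnion (fun i hi j hj hne => ho.disj i hi j hj hne),
      sum_congr rfl (fun i hi => (ho.inner i hi).2)]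
    simp [mul_comm]
  -- the members
  have hmem : ∀ C ∈ F, 5 * C.card + 135 ≤ 14 * NN B C := by
    intro C hC
    have hCU : C ⊆ U := FCSys.sub_of ho.sys hC
    have h1 := (bounds hs hl _ C rfl (hreg hCU)).1 (ho.sys.fc C hC) (ho.lk C hC)
    by_cases h3 : 3 ≤ C.card
    · have := h1 h3
      omega
    · obtain ⟨k, hk⟩ := (ho.sys.fc C hC).odd
      have hC1 : C.card = 1 := by omega
      obtain ⟨u, hu⟩ := card_eq_one.1 hC1
      have h2 : NN B C = 10 := by
        rw [hu]
        exact NN_singleton hs (hu ▸ hreg hCU)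
      omega
  have hsum : ∑ C ∈ F, (5 * C.card + 135) ≤ ∑ C ∈ F, 14 * NN B C := sum_le_sum hmem
  rw [sum_add_distrib, ← mul_sum, ← mul_sum, sum_const, smul_eq_mul] at hsum
  -- the rest
  have hRb := (bounds hs hl _ (Q' \ S.biUnion B) rfl (hreg (sdiff_subset.trans hQU))).2 hrest hrlk
  have hN1 := NN_sdiff hs hSQ (hreg hSU)
  have hcnt : S.card ≤ (univ.filter (fun i => (B i ∩ Q').Nonempty ∧
      B i ∩ Q' ⊆ S.biUnion B)).card := by
    refine card_le_card (fun i hi => mem_filter.2 ⟨mem_univ _, ?_⟩)
    have h1 : B i ⊆ S.biUnion B := subset_biUnion_of_mem B hi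
    rw [inter_eq_left.2 (h1.trans hSQ)]
    exact ⟨Inner.ne (ho.inner i hi), h1⟩
  have hc1 := card_sdiff_add_card_eq_card hSQ
  -- the whole
  have hN2 := NN_sdiff hs ho.sub (hreg ho.sub)
  have hN3 := NN_family (B := B) ho.sys.closed ho.sys.disj
  have hc2 := FCSys.cards ho.sub ho.sys
  rw [← hQ'] at hN3 hc2
  have hN4 := NN_all hs hr hU
  have hFc := ho.card
  omega

/-- weight of a block with `k` points. -/
def grL (k : ℕ) : ℕ :=
  if k = 1 then 153 else if k = 2 then 187 else if k = 3 then 221 else if k = 4 then 253 else 0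

theorem grL_step : ∀ s ≤ 4, ∀ t ≤ s, grL (s - t) + 32 * t ≤ grL s := by
  unfold grL
  decide

theorem grL_base : ∀ k ≤ 3, 119 * (if 0 < k then 1 else 0) + 34 * k ≤ grL k := by
  unfold grL
  decide

theorem lin_sdiff (hl : Lin B) (P : Finset V) : Lin (fun j => B j \ P) :=
  fun i j x y hxy hxi hyi hxj hyj => hl i j x y hxy (mem_sdiff.1 hxi).1 (mem_sdiff.1 hyi).1
    (mem_sdiff.1 hxj).1 (mem_sdiff.1 hyj).1

theorem lin4 : ∀ (k : ℕ) (B : ι → Finset V) (U : Finset V), U.card = k →
    (∀ i, (B i).card ≤ 4) → Lin B → Reg B U → (∀ i, B i ⊆ U) →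
    ∃ T : Finset ι, U ⊆ T.biUnion B ∧ 765 * T.card ≤ ∑ i, grL (B i).card := by
  classical
  intro k
  induction k using Nat.strong_induction_on with
  | _ k ih =>
  intro B U hk hs hl hr hU
  by_cases h4 : ∃ i, (B i).card = 4
  · obtain ⟨i, hi⟩ := h4
    have hc : (U \ B i).card + (B i).card = U.card := card_sdiff_add_card_eq_card (hU i)
    obtain ⟨T, hT1, hT2⟩ := ih (U \ B i).card (by omega) (fun j => B j \ B i) (U \ B i) rfl
      (fun j => (card_le_card sdiff_subset).trans (hs j)) (lin_sdiff hl _) (gr_reg hr) (gr_sub hU)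
    refine ⟨insert i T, gr_cover i T hT1, ?_⟩
    have hstep : ∀ j, grL (B j \ B i).card + 32 * (B j ∩ B i).card ≤ grL (B j).card := by
      intro j
      have h1 : (B j \ B i).card = (B j).card - (B j ∩ B i).card := by
        have := card_sdiff_add_card_inter (B j) (B i)
        omega
      rw [h1]
      exact grL_step _ (hs j) _ (card_le_card inter_subset_left)
    have hinc := gr_inc (B := B) (P := B i) (fun v hv => hr v (hU i hv))
    have hsum : ∑ j, grL (B j \ B i).card + 765 ≤ ∑ j, grL (B j).card := by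
      rw [← add_sum_erase univ (fun j => grL (B j \ B i).card) (mem_univ i),
        ← add_sum_erase univ (fun j => grL (B j).card) (mem_univ i)]
      rw [← add_sum_erase univ (fun j => (B j ∩ B i).card) (mem_univ i)] at hinc
      have hle := sum_le_sum (s := univ.erase i) (fun j _ => hstep j)
      rw [sum_add_distrib, ← mul_sum] at hle
      have e1 : grL (B i \ B i).card = 0 := by simp [grL]
      have e2 : grL (B i).card = 253 := by rw [hi]; rfl
      have e3 : (B i ∩ B i).card = 4 := by rw [inter_self, hi]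
      omega
    have := card_insert_le i T
    omega
  · push Not at h4
    have hsmall : Small B := by
      intro i
      have := hs i
      have := h4 i
      omega
    obtain ⟨T, hT1, hT2⟩ := lin3 hsmall hl U hr hU
    refine ⟨T, hT1, ?_⟩
    have h1 : ∑ i, (119 * (if 0 < (B i).card then 1 else 0) + 34 * (B i).card) ≤
        ∑ i, grL (B i).card := sum_le_sum (fun i _ => grL_base _ (hsmall i))
    rw [sum_add_distrib, ← mul_sum, ← mul_sum, ← card_filter] at h1
    have h2 : ∑ i, (B i).card = 5 * U.card := by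
      rw [← gr_inc hr]
      refine sum_congr rfl (fun i _ => ?_)
      rw [inter_eq_left.mpr (hU i)]
    have h3 : univ.filter (fun i => 0 < (B i).card) = univ.filter (fun i => (B i).Nonempty) :=
      filter_congr (fun i _ => card_pos)
    rw [h2, h3] at h1
    omega

theorem grL_bound : ∀ k ≤ 4, 21 * grL k ≤ 3265 * (if 0 < k then 1 else 0) + 512 * k := by
  unfold grL
  decide

theorem grL_bound2 : ∀ k ≤ 4, 220 * grL k ≤ 34425 * (if 0 < k then 1 else 0) + 5355 * k := by
  unfold grL
  decide

/-- blocks of any size, in greedy form: `c τ ≤ a n + b m` with `a + 5 b = c`. -/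
theorem linG {a b c : ℕ} (habc : a + 5 * b = c)
    (hbase : ∀ (B : ι → Finset V) (U : Finset V), (∀ i, (B i).card ≤ 4) → Lin B → Reg B U →
      (∀ i, B i ⊆ U) → ∃ T : Finset ι, U ⊆ T.biUnion B ∧
      c * T.card ≤ a * (univ.filter (fun i => (B i).Nonempty)).card + b * U.card) :
    ∀ (k : ℕ) (B : ι → Finset V) (U : Finset V), U.card = k →
    Lin B → Reg B U → (∀ i, B i ⊆ U) →
    ∃ T : Finset ι, U ⊆ T.biUnion B ∧
      c * T.card ≤ a * (univ.filter (fun i => (B i).Nonempty)).card + b * U.card := by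
  classical
  intro k
  induction k using Nat.strong_induction_on with
  | _ k ih =>
  intro B U hk hl hr hU
  by_cases h5 : ∃ i, 5 ≤ (B i).card
  · obtain ⟨i, hi⟩ := h5
    have hc : (U \ B i).card + (B i).card = U.card := card_sdiff_add_card_eq_card (hU i)
    obtain ⟨T, hT1, hT2⟩ := ih (U \ B i).card (by omega) (fun j => B j \ B i) (U \ B i) rfl
      (lin_sdiff hl _) (gr_reg hr) (gr_sub hU)
    refine ⟨insert i T, gr_cover i T hT1, ?_⟩
    have hlt : (univ.filter (fun j => (B j \ B i).Nonempty)).card + 1 ≤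
        (univ.filter (fun j => (B j).Nonempty)).card := by
      have hsub : univ.filter (fun j => (B j \ B i).Nonempty) ⊆
          (univ.filter (fun j => (B j).Nonempty)).erase i := by
        intro j hj
        rw [mem_filter] at hj
        rw [mem_erase, mem_filter]
        refine ⟨?_, mem_univ _, hj.2.mono sdiff_subset⟩
        rintro rfl
        have := hj.2
        simp at this
      have hmem : i ∈ univ.filter (fun j => (B j).Nonempty) := by
        rw [mem_filter]
        exact ⟨mem_univ _, card_pos.mp (by omega)⟩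
      have h1 := card_le_card hsub
      have h2 := card_erase_add_one hmem
      omega
    have h6 := card_insert_le i T
    calc c * (insert i T).card ≤ c * (T.card + 1) := Nat.mul_le_mul_left c h6
      _ = c * T.card + c := by ring
      _ ≤ a * (univ.filter (fun j => (B j \ B i).Nonempty)).card + b * (U \ B i).card + c :=
          Nat.add_le_add_right hT2 c
      _ = a * ((univ.filter (fun j => (B j \ B i).Nonempty)).card + 1) +
          b * ((U \ B i).card + 5) := by rw [← habc]; ring
      _ ≤ a * (univ.filter (fun j => (B j).Nonempty)).card + b * U.card :=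
          Nat.add_le_add (Nat.mul_le_mul_left a hlt) (Nat.mul_le_mul_left b (by omega))
  · push Not at h5
    exact hbase B U (fun i => by have := h5 i; omega) hl hr hU

theorem linA (hl : Lin B) (U : Finset V) (hr : Reg B U) (hU : ∀ i, B i ⊆ U) :
    ∃ T : Finset ι, U ⊆ T.biUnion B ∧
      3213 * T.card ≤ 653 * (univ.filter (fun i => (B i).Nonempty)).card + 512 * U.card := by
  refine linG (by norm_num) ?_ _ B U rfl hl hr hU
  intro B U hs hl hr hU
  obtain ⟨T, hT1, hT2⟩ := lin4 _ B U rfl hs hl hr hU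
  refine ⟨T, hT1, ?_⟩
  have h1 : ∑ i, 21 * grL (B i).card ≤
      ∑ i, (3265 * (if 0 < (B i).card then 1 else 0) + 512 * (B i).card) :=
    sum_le_sum (fun i _ => grL_bound _ (hs i))
  rw [sum_add_distrib, ← mul_sum, ← mul_sum, ← mul_sum, ← card_filter] at h1
  have h2 : ∑ i, (B i).card = 5 * U.card := by
    rw [← gr_inc hr]
    refine sum_congr rfl (fun i _ => ?_)
    rw [inter_eq_left.mpr (hU i)]
  have h3 : univ.filter (fun i => 0 < (B i).card) = univ.filter (fun i => (B i).Nonempty) :=
    filter_congr (fun i _ => card_pos)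
  rw [h2, h3] at h1
  omega

theorem linB (hl : Lin B) (U : Finset V) (hr : Reg B U) (hU : ∀ i, B i ⊆ U) :
    ∃ T : Finset ι, U ⊆ T.biUnion B ∧
      44 * T.card ≤ 9 * (univ.filter (fun i => (B i).Nonempty)).card + 7 * U.card := by
  refine linG (by norm_num) ?_ _ B U rfl hl hr hU
  intro B U hs hl hr hU
  obtain ⟨T, hT1, hT2⟩ := lin4 _ B U rfl hs hl hr hU
  refine ⟨T, hT1, ?_⟩
  have h1 : ∑ i, 220 * grL (B i).card ≤
      ∑ i, (34425 * (if 0 < (B i).card then 1 else 0) + 5355 * (B i).card) :=
    sum_le_sum (fun i _ => grL_bound2 _ (hs i))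
  rw [sum_add_distrib, ← mul_sum, ← mul_sum, ← mul_sum, ← card_filter] at h1
  have h2 : ∑ i, (B i).card = 5 * U.card := by
    rw [← gr_inc hr]
    refine sum_congr rfl (fun i _ => ?_)
    rw [inter_eq_left.mpr (hU i)]
  have h3 : univ.filter (fun i => 0 < (B i).card) = univ.filter (fun i => (B i).Nonempty) :=
    filter_congr (fun i _ => card_pos)
  rw [h2, h3] at h1
  omega

end Pool.Agent.HypLin
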