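import Pool.Agent.HypLin.Opt

/-! # HYPLIN EXOPT: existence of optimal partial matchings with their deficient parts -/

set_option autoImplicit false

namespace Pool.Agent.HypLin

open Finset Pool.Agent.Hyp5

variable {V : Type*} [DecidableEq V] {ι : Type*} {B : ι → Finset V}

/-- replacing a triple by an edge, using a point outside. -/
theorem part_replace {C : Finset V} {S : Finset ι} {j : ι} {u h : V} (hC : FC (gr B) C) (hj : j ∈ S)
    (h3 : ∀ i ∈ S, (B i).card = 3) (hd : ∀ i ∈ S, ∀ k ∈ S, i ≠ k → Disjoint (B i) (B k))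
    (hCS : Disjoint C (S.biUnion B)) (hu : u ∈ C) (hh : h ∈ B j) (huh : (gr B).Adj u h) :
    Part B (C ∪ S.biUnion B) (S.card - 1) 0 := by
  classical
  have hS : (S.erase j).card = S.card - 1 := card_erase_of_mem hj
  have h1 : Part B ((S.erase j).biUnion B) (S.card - 1) 0 := by
    rw [← hS]
    exact Part.of_triples (fun i hi => h3 i (mem_of_mem_erase hi))
      (fun i hi k hk => hd i (mem_of_mem_erase hi) k (mem_of_mem_erase hk))
  have hsubj : B j ⊆ S.biUnion B := subset_biUnion_of_mem B hj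
  have hc : ((B j).erase h).card = 2 := by
    rw [card_erase_of_mem hh, h3 j hj]
  obtain ⟨a, b, hab, he⟩ := card_eq_two.1 hc
  have ha : a ∈ (B j).erase h := by rw [he]; simp
  have hb : b ∈ (B j).erase h := by rw [he]; simp
  have hadj : (gr B).Adj a b := ⟨hab, j, mem_of_mem_erase ha, mem_of_mem_erase hb⟩
  have hhC : h ∉ C := fun h' => Finset.disjoint_left.1 hCS h' (hsubj hh)
  have h2 : PM (gr B) (insert h C) := hC.pm_insert hhC ⟨u, hu, huh.symm⟩
  have h4 : PM (gr B) (insert h C ∪ {a, b}) := by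
    refine h2.union (PM.pair hadj) ?_
    rw [← he, Finset.disjoint_left]
    intro x hx hx'
    obtain ⟨h5, h6⟩ := mem_erase.1 hx'
    rcases mem_insert.1 hx with hx | hx
    · exact h5 hx
    · exact Finset.disjoint_left.1 hCS hx (hsubj h6)
  refine ((Part.of_pm h4).union h1 ?_).congr ?_ (by simp) (by simp)
  · rw [← he, Finset.disjoint_left]
    intro x hx hx'
    obtain ⟨i, hi, hxi⟩ := mem_biUnion.1 hx'
    have hij := hd i (mem_of_mem_erase hi) j hj (ne_of_mem_erase hi)
    rcases mem_union.1 hx with hx | hx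
    · rcases mem_insert.1 hx with hx | hx
      · rw [hx] at hxi
        exact Finset.disjoint_left.1 hij hxi hh
      · exact Finset.disjoint_left.1 hCS hx (mem_biUnion.2 ⟨i, mem_of_mem_erase hi, hxi⟩)
    · exact Finset.disjoint_left.1 hij hxi (mem_of_mem_erase hx)
  · rw [← he]
    ext x
    simp only [mem_union, mem_insert, mem_erase, mem_biUnion]
    constructor
    · rintro (((h5 | h5) | ⟨h5, h6⟩) | ⟨i, hi, hxi⟩)
      · exact Or.inr ⟨j, hj, h5 ▸ hh⟩
      · exact Or.inl h5
      · exact Or.inr ⟨j, hj, h6⟩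
      · exact Or.inr ⟨i, hi.2, hxi⟩
    · rintro (h5 | ⟨i, hi, hxi⟩)
      · exact Or.inl (Or.inl (Or.inr h5))
      · by_cases hij : i = j
        · subst hij
          by_cases hxh : x = h
          · exact Or.inl (Or.inl (Or.inl hxh))
          · exact Or.inl (Or.inr ⟨hxh, hxi⟩)
        · exact Or.inr ⟨i, ⟨hij, hi⟩, hxi⟩

theorem exists_opt (B : ι → Finset V) (Q : Finset V) :
    ∃ (S : Finset ι) (d : ℕ) (A : Finset V) (F : Finset (Finset V)), Opt B Q S d A F := by
  classical
  obtain ⟨t, d, hp, hmax⟩ := exists_opt_pair B Q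
  have hp0 := hp
  obtain ⟨S, D, hS, hD, hin, hdis, hsub, hpm⟩ := hp
  set E := S.biUnion B with hE
  set W := Q \ E with hW
  have hEQ : E ⊆ Q := biUnion_sub hin
  have hWQ : W ⊆ Q := sdiff_subset
  have hWE : Disjoint W E := sdiff_disjoint
  have h3S : ∀ i ∈ S, (B i).card = 3 := fun i hi => (hin i hi).2
  have hEpart : Part B E t 0 :=
    (Part.of_triples h3S hdis).congr rfl hS rfl
  have hext : ∀ t' d', Part B W t' d' → t' + d ≤ d' := by
    intro t' d' h
    have h1 : Part B Q (t' + t) (d' + 0) :=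
      (h.union hEpart hWE).congr (sdiff_union_of_subset hEQ) rfl rfl
    have h2 := (hmax _ _ h1).1
    omega
  obtain ⟨X, F0, -, hXW, hF0, hrest, hm⟩ := exists_sys (gr B) W ∅ (empty_subset _)
  have hle := oddSys_card_le hF0.oddSys hpm
  have hge : X.card ≤ F0.card := by
    have := hm ∅ ∅ (empty_subset _) (empty_subset _) ⟨by simp, by simp, by simp⟩
    simpa using this
  obtain ⟨δ, hδ⟩ := Nat.exists_eq_add_of_le hge
  have hnbr : ∀ T : Finset (Finset V), nbr (gr B) X T ⊆ X := fun T x hx => (sysB_mem_nbr.1 hx).1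
  have hall : ∀ T ⊆ F0, T.card ≤ (nbr (gr B) X T).card + δ := by
    intro T hT
    have := hm (nbr (gr B) X T) T (empty_subset _) ((hnbr T).trans hXW)
      (OddSys.sub_nbr hXW hF0.oddSys hT)
    omega
  have hdX : ∀ C ∈ F0, Disjoint C X := by
    intro C hC
    rw [Finset.disjoint_left]
    intro x hx hx'
    exact (mem_sdiff.1 ((hF0.closed C hC).1 hx)).2 hx'
  have hFW : ∀ C ∈ F0, C ⊆ W := fun C hC => ((hF0.closed C hC).1).trans sdiff_subset
  obtain ⟨R0, hR0⟩ : ∃ R0, (W \ X) \ F0.biUnion id = R0 := ⟨_, rfl⟩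
  have hrest' : PM (gr B) R0 := hR0 ▸ hrest
  have hWX : X ∪ F0.biUnion id ∪ R0 = W := by
    rw [← hR0]
    ext x
    simp only [mem_union, mem_sdiff, mem_biUnion, id]
    constructor
    · rintro ((h | ⟨C, hC, hxC⟩) | h)
      · exact hXW h
      · exact hFW C hC hxC
      · exact h.1.1
    · intro h
      by_cases h1 : x ∈ X
      · exact Or.inl (Or.inl h1)
      · by_cases h2 : ∃ C ∈ F0, x ∈ C
        · exact Or.inl (Or.inr h2)
        · exact Or.inr ⟨⟨h, h1⟩, h2⟩
  have hdr : Disjoint (X ∪ F0.biUnion id) R0 := by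
    rw [← hR0, Finset.disjoint_left]
    intro x hx hx'
    obtain ⟨h1, h2⟩ := mem_sdiff.1 hx'
    rcases mem_union.1 hx with hx | hx
    · exact (mem_sdiff.1 h1).2 hx
    · exact h2 hx
  have hpW : Part B W 0 δ :=
    ((part_assign0 hF0 hδ hall).union (Part.of_pm hrest') hdr).congr hWX rfl rfl
  have hdδ := hext _ _ hpW
  have hδd : δ = d := by omega
  subst hδd
  set Fb := F0.filter (fun C => Lk B C ∧ ∀ x ∈ C, ∀ y ∈ E, ¬ (gr B).Adj x y) with hFbdef
  have hFb : Fb ⊆ F0 := Finset.filter_subset _ _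
  obtain ⟨T0, hT0, hsup⟩ := Finset.exists_mem_eq_sup Fb.powerset
    ⟨∅, Finset.empty_mem_powerset _⟩ (fun T => T.card - (nbr (gr B) X T).card)
  set dB := Fb.powerset.sup (fun T => T.card - (nbr (gr B) X T).card) with hdB
  rw [Finset.mem_powerset] at hT0
  have h2 : ∀ T ⊆ Fb, T.card ≤ (nbr (gr B) X T).card + dB := by
    intro T hT
    have : T.card - (nbr (gr B) X T).card ≤ dB :=
      Finset.le_sup (f := fun T => T.card - (nbr (gr B) X T).card)
        (Finset.mem_powerset.mpr hT)
    omega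
  have hdBd : δ ≤ dB := by
    by_contra hcon
    push Not at hcon
    obtain ⟨C, hC, hCb, hpart⟩ := part_assign1 hF0 hδ hFb hcon hall h2
    -- the rest of `W`
    have hdC : Disjoint C (X ∪ (F0.erase C).biUnion id ∪ R0) := by
      rw [← hR0, Finset.disjoint_left]
      intro x hx hx'
      rcases mem_union.1 hx' with hx' | hx'
      · rcases mem_union.1 hx' with hx' | hx'
        · exact Finset.disjoint_left.1 (hdX C hC) hx hx'
        · obtain ⟨C', hC', hxC'⟩ := mem_biUnion.1 hx'
          exact Finset.disjoint_left.1 (hF0.disj C' (mem_of_mem_erase hC') C hC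
            (ne_of_mem_erase hC')) hxC' hx
      · exact (mem_sdiff.1 hx').2 (mem_biUnion.2 ⟨C, hC, hx⟩)
    have heq : C ∪ (X ∪ (F0.erase C).biUnion id ∪ R0) = W := by
      rw [← hWX]
      have h5 : (insert C (F0.erase C)).biUnion id = C ∪ (F0.erase C).biUnion id :=
        biUnion_insert
      rw [insert_erase hC] at h5
      rw [h5]
      ext x
      simp only [mem_union]
      tauto
    have hrw : Part B (X ∪ (F0.erase C).biUnion id ∪ R0) 0 (δ - 1) := by
      refine (hpart.union (Part.of_pm hrest') ?_).congr rfl rfl rfl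
      refine hdr.mono_left (union_subset_union (le_refl _) ?_)
      exact biUnion_subset_biUnion_of_subset_left _ (erase_subset _ _)
    by_cases hlk : Lk B C
    · -- adjacent to a triple
      have h6 : ∃ u ∈ C, ∃ h ∈ E, (gr B).Adj u h := by
        by_contra h6
        push Not at h6
        exact hCb (mem_filter.2 ⟨hC, hlk, h6⟩)
      obtain ⟨u, hu, h, hh, huh⟩ := h6
      obtain ⟨j, hj, hhj⟩ := mem_biUnion.1 (by rw [← hE]; exact hh : h ∈ S.biUnion B)
      have hCE : Disjoint C E := hWE.mono_left (hFW C hC)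
      have h7 := part_replace (hF0.fc C hC) hj h3S hdis hCE hu hhj huh
      have h8 : Part B Q (S.card - 1 + 0) (0 + (δ - 1)) := by
        refine (h7.union hrw ?_).congr ?_ rfl rfl
        · rw [disjoint_union_left]
          refine ⟨hdC, (hWE.mono_left ?_).symm⟩
          rw [← heq]
          exact subset_union_right
        · rw [union_right_comm, heq, ← hE]
          exact sdiff_union_of_subset hEQ
      have h9 := hmax _ _ h8
      have h10 : 1 ≤ S.card := card_pos.2 ⟨j, hj⟩
      have h11 := h9.2 (by omega)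
      omega
    · -- not locked
      unfold Lk at hlk
      push Not at hlk
      obtain ⟨t0, d0, hpt, htd⟩ := hlk
      obtain ⟨k, hk⟩ := hpt.parity
      obtain ⟨l, hl⟩ := (hF0.fc C hC).odd
      have h7 : Part B W (t0 + 0) (d0 + (δ - 1)) := (hpt.union hrw hdC).congr heq rfl rfl
      have h8 := hext _ _ h7
      omega
  -- the tight family
  have hT : ∃ T ⊆ Fb, T.card = (nbr (gr B) X T).card + δ := by
    rcases Nat.eq_zero_or_pos δ with h0 | h0
    · refine ⟨∅, empty_subset _, ?_⟩
      have : nbr (gr B) X ∅ = ∅ := by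
        rw [Finset.eq_empty_iff_forall_notMem]
        intro x hx
        obtain ⟨-, C, hC, -⟩ := sysB_mem_nbr.1 hx
        simp at hC
      rw [this, h0]
      rfl
    · refine ⟨T0, hT0, ?_⟩
      have h5 := hall T0 (hT0.trans hFb)
      omega
  obtain ⟨T, hTb, hTc⟩ := hT
  have hTF : T ⊆ F0 := hTb.trans hFb
  set A := nbr (gr B) X T with hA
  have hAW : A ⊆ W := (hnbr T).trans hXW
  have hsys := hF0.sub_nbr hXW hTF
  rw [← hA] at hsys
  have hR := rest_of_tight hXW hF0 hrest hδ hall hTF hTc
  rw [← hA] at hR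
  have hTW : T.biUnion id ⊆ W := by
    intro x hx
    obtain ⟨C, hC, hxC⟩ := mem_biUnion.1 hx
    exact hFW C (hTF hC) hxC
  have hpA : Part B (A ∪ T.biUnion id) 0 δ := by
    refine part_assign0 hsys hTc ?_
    intro T' hT'
    refine (hall T' (hT'.trans hTF)).trans ?_
    have h5 : nbr (gr B) X T' ⊆ nbr (gr B) A T' := by
      intro x hx
      rw [sysB_mem_nbr] at hx ⊢
      obtain ⟨hx1, C, hC, hx2⟩ := hx
      refine ⟨?_, C, hC, hx2⟩
      rw [hA, sysB_mem_nbr]
      exact ⟨hx1, C, hT' hC, hx2⟩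
    have h6 := card_le_card h5
    omega
  refine ⟨S, δ, A, T, ?_⟩
  refine
    { inner := hin
      disj := hdis
      sub := hAW.trans hWQ
      sys := ⟨?_, hsys.fc, hsys.disj⟩
      lk := fun C hC => (mem_filter.1 (hTb hC)).2.1
      card := hTc
      dA := hWE.mono_left hAW
      dF := fun C hC => hWE.mono_left (hFW C (hTF hC))
      rest := hR
      restLk := ?_
      part := by rw [hS]; exact hp0
      max := by rw [hS]; exact hmax }
  · intro C hC
    have hcl := hsys.closed C hC
    refine ⟨?_, ?_⟩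
    · intro x hx
      have h5 := mem_sdiff.1 (hcl.1 hx)
      exact mem_sdiff.2 ⟨hWQ h5.1, h5.2⟩
    · intro x hx y hy hxy
      have h5 := mem_sdiff.1 hy
      by_cases hyE : y ∈ E
      · exact absurd hxy ((mem_filter.1 (hTb hC)).2.2 x hx y hyE)
      · exact hcl.2 x hx y (mem_sdiff.2 ⟨mem_sdiff.2 ⟨h5.1, hyE⟩, h5.2⟩) hxy
  · intro t1 d1 h1
    have h5 : Part B W (t1 + 0) (d1 + δ) := by
      refine (h1.union hpA ?_).congr ?_ rfl rfl
      · rw [Finset.disjoint_left]
        intro x hx hx'
        obtain ⟨h6, h7⟩ := mem_sdiff.1 hx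
        rcases mem_union.1 hx' with hx' | hx'
        · exact (mem_sdiff.1 h6).2 hx'
        · exact h7 hx'
      · ext x
        simp only [mem_union, mem_sdiff, ← hE, ← hW]
        have h8 : x ∈ A → x ∈ W := fun h => hAW h
        have h9 : x ∈ T.biUnion id → x ∈ W := fun h => hTW h
        have h10 : x ∈ Q ∧ x ∉ E ↔ x ∈ W := mem_sdiff.symm
        tauto
    have h6 := hext _ _ h5
    omega

end Pool.Agent.HypLin
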