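import Pool.Agent.HypLin.Cover

/-! # HYPLIN FINAL: linear hypergraphs and graphs without 4-cycles -/

set_option autoImplicit false

namespace Pool.Agent.HypLin

open Finset Pool.Agent.Hyp5

/-- the blocks of a hypergraph: the edges containing a vertex. -/
private def linBl {V κ : Type*} [DecidableEq V] [Fintype κ] (e : κ → Finset V) (v : V) :
    Finset κ := univ.filter (fun k => v ∈ e k)

private theorem linBl_reg {V κ : Type*} [Fintype V] [DecidableEq V] [Fintype κ] [DecidableEq κ]
    (e : κ → Finset V) (h5 : ∀ k, (e k).card = 5) : Reg (linBl e) univ := by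
  intro k _
  rw [← h5 k]
  congr 1
  ext v
  simp [linBl]

private theorem linBl_lin {V κ : Type*} [DecidableEq V] [Fintype κ]
    (e : κ → Finset V) (hlin : ∀ k k', k ≠ k' → (e k ∩ e k').card ≤ 1) : Lin (linBl e) := by
  intro v w x y hxy hxv hyv hxw hyw
  have h1 := card_le_one.1 (hlin x y hxy)
  exact h1 v (mem_inter.2 ⟨(mem_filter.1 hxv).2, (mem_filter.1 hyv).2⟩) w
    (mem_inter.2 ⟨(mem_filter.1 hxw).2, (mem_filter.1 hyw).2⟩)

private theorem linBl_cover {V κ : Type*} [DecidableEq V] [Fintype κ] [DecidableEq κ]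
    (e : κ → Finset V) {T : Finset V} (hT : (univ : Finset κ) ⊆ T.biUnion (linBl e)) (k : κ) :
    (e k ∩ T).Nonempty := by
  obtain ⟨v, hv, hk⟩ := Finset.mem_biUnion.mp (hT (Finset.mem_univ k))
  rw [linBl, Finset.mem_filter] at hk
  exact ⟨v, Finset.mem_inter.mpr ⟨hk.2, hv⟩⟩

/-- linear hypergraphs with edges of size at least five. -/
theorem linear_transversal {V κ : Type*} [Fintype V] [DecidableEq V] [Fintype κ]
    (e : κ → Finset V) (h5 : ∀ k, 5 ≤ (e k).card)
    (hlin : ∀ k k', k ≠ k' → (e k ∩ e k').card ≤ 1) :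
    ∃ T : Finset V, (∀ k, (e k ∩ T).Nonempty) ∧
      3213 * T.card ≤ 653 * Fintype.card V + 512 * Fintype.card κ ∧
      44 * T.card ≤ 9 * Fintype.card V + 7 * Fintype.card κ ∧
      ((∀ v, (univ.filter (fun k => v ∈ e k)).card ≤ 3) →
        45 * T.card ≤ 7 * Fintype.card V + 10 * Fintype.card κ) := by
  classical
  have hsub : ∀ k, ∃ t ⊆ e k, t.card = 5 := fun k => Finset.exists_subset_card_eq (h5 k)
  choose f hf hf5 using hsub
  have hflin : ∀ k k', k ≠ k' → (f k ∩ f k').card ≤ 1 := fun k k' hne =>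
    (card_le_card (inter_subset_inter (hf k) (hf k'))).trans (hlin k k' hne)
  have hne : ((univ : Finset (Finset V)).filter (fun T => ∀ k, (f k ∩ T).Nonempty)).Nonempty := by
    refine ⟨univ, mem_filter.2 ⟨mem_univ _, fun k => ?_⟩⟩
    rw [inter_univ, ← card_pos, hf5 k]
    norm_num
  obtain ⟨T, hT, hmin⟩ := exists_min_image _ (fun T : Finset V => T.card) hne
  have hmin' : ∀ T' : Finset V, (∀ k, (f k ∩ T').Nonempty) → T.card ≤ T'.card := fun T' h =>
    hmin T' (mem_filter.2 ⟨mem_univ _, h⟩)
  have hn : (univ.filter (fun v => (linBl f v).Nonempty)).card ≤ Fintype.card V :=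
    Finset.card_le_univ _
  refine ⟨T, fun k => ((mem_filter.1 hT).2 k).mono (inter_subset_inter_right (hf k)),
    ?_, ?_, fun h3 => ?_⟩
  · obtain ⟨T1, h1, h2⟩ := linA (linBl_lin f hflin) univ (linBl_reg f hf5)
      (fun i => Finset.subset_univ _)
    have h3 := hmin' T1 (linBl_cover f h1)
    rw [card_univ] at h2
    omega
  · obtain ⟨T1, h1, h2⟩ := linB (linBl_lin f hflin) univ (linBl_reg f hf5)
      (fun i => Finset.subset_univ _)
    have h3 := hmin' T1 (linBl_cover f h1)
    rw [card_univ] at h2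
    omega
  · have hs : Small (linBl f) := by
      intro v
      refine (card_le_card ?_).trans (h3 v)
      intro k hk
      exact mem_filter.2 ⟨mem_univ _, hf k (mem_filter.1 hk).2⟩
    obtain ⟨T1, h1, h2⟩ := lin3 hs (linBl_lin f hflin) univ (linBl_reg f hf5)
      (fun i => Finset.subset_univ _)
    have h3 := hmin' T1 (linBl_cover f h1)
    rw [card_univ] at h2
    omega

/-- total domination in graphs without 4-cycles. -/
theorem total_domination_c4 {V : Type*} [Fintype V] (G : SimpleGraph V) [DecidableRel G.Adj]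
    (h : 5 ≤ G.minDegree) (h4 : ∀ v w : V, v ≠ w → (G.commonNeighbors v w).Subsingleton) :
    ∃ S : Finset V, (∀ v : V, ∃ u ∈ S, G.Adj v u) ∧ 3213 * S.card ≤ 1165 * Fintype.card V := by
  classical
  obtain ⟨T, hT, hc, -, -⟩ := linear_transversal (fun v => G.neighborFinset v)
    (fun v => by
      rw [SimpleGraph.card_neighborFinset_eq_degree]
      exact h.trans (G.minDegree_le_degree v))
    (fun v w hvw => by
      rw [card_le_one]
      intro a ha b hb
      rw [mem_inter, SimpleGraph.mem_neighborFinset, SimpleGraph.mem_neighborFinset] at ha hb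
      exact h4 v w hvw ((G.mem_commonNeighbors).2 ha) ((G.mem_commonNeighbors).2 hb))
  refine ⟨T, fun v => ?_, by omega⟩
  obtain ⟨u, hu⟩ := hT v
  rw [Finset.mem_inter] at hu
  exact ⟨u, hu.2, (G.mem_neighborFinset v u).mp hu.1⟩

end Pool.Agent.HypLin
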