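import Pool.Agent.HypLin.Count

/-! # HYPLIN MAIN: the main inequality, induction hypotheses -/

set_option autoImplicit false

namespace Pool.Agent.HypLin

open Finset Pool.Agent.Hyp5

variable {V : Type*} [DecidableEq V] {ι : Type*} [Fintype ι] {B : ι → Finset V}

/-- the bound for smaller locked factor-critical sets. -/
def PB (B : ι → Finset V) (Q : Finset V) : Prop :=
  ∀ C : Finset V, C ⊂ Q → FC (gr B) C → Lk B C → 3 ≤ C.card → C.card + 27 ≤ 2 * NN B C

/-- the bound for smaller locked sets with a perfect matching. -/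
def PZ (B : ι → Finset V) (Q : Finset V) : Prop :=
  ∀ C : Finset V, C ⊂ Q → PM (gr B) C → Lk B C → C.card ≤ 2 * NN B C

theorem PB.member (hs : Small B) {Q C : Finset V} (h : PB B Q) (hr : Reg B Q) (hC : C ⊂ Q)
    (hfc : FC (gr B) C) (hlk : Lk B C) :
    C.card + 19 + 8 * (if 3 ≤ C.card then 1 else 0) ≤ 2 * NN B C := by
  by_cases h3 : 3 ≤ C.card
  · rw [if_pos h3]
    exact h C hC hfc hlk h3
  · rw [if_neg h3]
    obtain ⟨k, hk⟩ := hfc.odd
    have h1 : C.card = 1 := by omega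
    obtain ⟨u, hu⟩ := card_eq_one.1 h1
    have h2 : NN B C = 10 := by
      rw [hu]
      refine NN_singleton hs ?_
      intro v hv
      rw [mem_singleton] at hv
      refine hr v (hC.1 ?_)
      rw [hu, hv]
      exact mem_singleton_self u
    omega

theorem FCSys.cards {Q A : Finset V} {F : Finset (Finset V)} {G : SimpleGraph V} (hA : A ⊆ Q)
    (hF : FCSys G (Q \ A) F) :
    ((Q \ A) \ F.biUnion id).card + ∑ C ∈ F, C.card + A.card = Q.card := by
  have h1 : (F.biUnion id).card = ∑ C ∈ F, C.card := by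
    have hcb : (F.biUnion id).card = ∑ C ∈ F, (id C : Finset V).card :=
      card_biUnion (fun C hC D hD hne => hF.disj C hC D hD hne)
    rw [hcb]
    rfl
  have h2 : F.biUnion id ⊆ Q \ A := by
    intro x hx
    obtain ⟨C, hC, hxC⟩ := mem_biUnion.1 hx
    exact (hF.closed C hC).1 hxC
  have h3 := card_sdiff_add_card_eq_card h2
  have h4 := card_sdiff_add_card_eq_card hA
  omega

theorem FCSys.sub_of {Q A : Finset V} {F : Finset (Finset V)} {G : SimpleGraph V}
    (hF : FCSys G (Q \ A) F) {C : Finset V} (hC : C ∈ F) : C ⊆ Q :=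
  ((hF.closed C hC).1).trans sdiff_subset

/-- lower bound for `NN` of a system. -/
theorem sys_lower (hs : Small B) {Q W A : Finset V} {F : Finset (Finset V)} {R : Finset V}
    (hr : Reg B Q) (hPB : PB B Q) (hPZ : PZ B Q) (hCQ : ∀ C ∈ F, C ⊂ Q) (hRQ : R ⊂ Q)
    (hA : A ⊆ W)
    (hF : FCSys (gr B) (W \ A) F)
    (hlk : ∀ C ∈ F, Lk B C) (hR : R = (W \ A) \ F.biUnion id) (hpm : PM (gr B) R)
    (hRlk : Lk B R) :
    W.card + 19 * F.card + 8 * (F.filter (fun C => 3 ≤ C.card)).card ≤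
      2 * NN B (W \ A) + A.card := by
  have h1 := NN_family (B := B) hF.closed hF.disj
  have h2 := FCSys.cards hA hF
  rw [← hR] at h1 h2
  have h3 : R.card ≤ 2 * NN B R := hPZ R hRQ hpm hRlk
  have h4 : ∑ C ∈ F, (C.card + 19 + 8 * (if 3 ≤ C.card then 1 else 0)) ≤
      ∑ C ∈ F, 2 * NN B C := by
    refine sum_le_sum (fun C hC => ?_)
    exact hPB.member hs hr (hCQ C hC) (hF.fc C hC) (hlk C hC)
  rw [sum_add_distrib, sum_add_distrib, ← mul_sum, ← mul_sum, ← card_filter, sum_const,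
    smul_eq_mul] at h4
  omega

/-- the main inequality. -/
theorem main_ineq (hs : Small B) {Q : Finset V} (hr : Reg B Q) (hPB : PB B Q) (hPZ : PZ B Q)
    {i : ι} (hi : Inner B Q i) {d : ℕ} {A : Finset V} {F : Finset (Finset V)}
    (ho : Opt B (Q \ B i) ∅ d A F) :
    Q.card + 8 * A.card + 19 * d + 8 * (F.filter (fun C => 3 ≤ C.card)).card ≤
      2 * NN B Q + 27 := by
  have hBi : B i ⊆ Q := hi.1
  have hne : (B i).Nonempty := Inner.ne hi
  have hWQ : Q \ B i ⊂ Q := by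
    refine ⟨sdiff_subset, fun h => ?_⟩
    obtain ⟨x, hx⟩ := hne
    exact (mem_sdiff.1 (h (hBi hx))).2 hx
  have hrest := ho.rest
  have hlk := ho.restLk
  rw [biUnion_empty, sdiff_empty] at hrest hlk
  have h1 := sys_lower hs hr hPB hPZ
    (fun C hC => lt_of_le_of_lt (FCSys.sub_of ho.sys hC) hWQ)
    (lt_of_le_of_lt (sdiff_subset.trans sdiff_subset) hWQ) ho.sub ho.sys ho.lk rfl hrest hlk
  have hX : B i ∪ A ⊆ Q := union_subset hBi (ho.sub.trans sdiff_subset)
  have h2 := NN_sdiff hs hX (fun v hv => hr v (hX hv))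
  have h3 : Q \ (B i ∪ A) = (Q \ B i) \ A := by
    rw [sdiff_sdiff_left]
    rfl
  have h4 : (B i ∪ A).card = 3 + A.card := by
    rw [card_union_of_disjoint, hi.2]
    rw [Finset.disjoint_left]
    intro x hx hx'
    exact (mem_sdiff.1 (ho.sub hx')).2 hx
  have h5 : 1 ≤ (univ.filter (fun j => (B j ∩ Q).Nonempty ∧ B j ∩ Q ⊆ B i ∪ A)).card := by
    refine card_pos.2 ⟨i, mem_filter.2 ⟨mem_univ _, ?_⟩⟩
    rw [inter_eq_left.2 hBi]
    exact ⟨hne, subset_union_left⟩
  rw [h3, h4] at h2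
  have h6 := card_sdiff_add_card_eq_card hBi
  rw [hi.2] at h6
  have h7 := ho.card
  omega

/-- a perfect matching restricts up to the partners of the removed points. -/
theorem pm_remove {Q X : Finset V} (h : PM (gr B) Q) (hX : X ⊆ Q) :
    ∃ d ≤ X.card, Part B (Q \ X) 0 d := by
  obtain ⟨f, hf⟩ := h
  have h1 : (X.image f) \ X ⊆ Q \ X := by
    intro x hx
    obtain ⟨h2, h3⟩ := mem_sdiff.1 hx
    obtain ⟨y, hy, rfl⟩ := mem_image.1 h2
    exact mem_sdiff.2 ⟨(hf y (hX hy)).1, h3⟩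
  refine ⟨((X.image f) \ X).card, (card_le_card sdiff_subset).trans card_image_le,
    Part.of_sub h1 ⟨f, fun v hv => ?_⟩⟩
  obtain ⟨h2, h3⟩ := mem_sdiff.1 hv
  obtain ⟨h4, h5⟩ := mem_sdiff.1 h2
  obtain ⟨h6, h7, h8⟩ := hf v h4
  refine ⟨?_, h7, h8⟩
  have h9 : f v ∉ X := by
    intro h9
    refine h3 (mem_sdiff.2 ⟨mem_image.2 ⟨f v, h9, h7⟩, h5⟩)
  refine mem_sdiff.2 ⟨mem_sdiff.2 ⟨h6, h9⟩, ?_⟩
  intro h10
  obtain ⟨y, hy, hyv⟩ := mem_image.1 (mem_sdiff.1 h10).1
  have h11 : y = v := by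
    rw [← (hf y (hX hy)).2.1, hyv, h7]
  exact h5 (h11 ▸ hy)

/-- the optimal partial matching of the complement of a triple. -/
theorem opt_triple {Q : Finset V} (hlk : Lk B Q) {i : ι} (hi : Inner B Q i) {d : ℕ}
    (hd : Part B (Q \ B i) 0 d) (hd2 : d ≤ 2) :
    ∃ (A : Finset V) (F : Finset (Finset V)), Opt B (Q \ B i) ∅ d A F := by
  obtain ⟨S, d', A, F, ho⟩ := exists_opt B (Q \ B i)
  have h1 := hlk _ _ (Part.of_triple hi ho.part)
  have h2 := ho.max _ _ hd
  obtain ⟨k, hk⟩ := hd.parity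
  obtain ⟨l, hl⟩ := ho.part.parity
  have h3 : S.card = 0 := by omega
  have h4 : d' = d := by omega
  rw [card_eq_zero] at h3
  subst h3
  subst h4
  exact ⟨A, F, ho⟩

/-- two blocks sharing two points coincide. -/
theorem Lin.eq_of_card (hl : Lin B) {i j : ι} {N : Finset V} (hi : N ⊆ B i) (hj : N ⊆ B j)
    (hN : 2 ≤ N.card) : i = j := by
  obtain ⟨x, hx, y, hy, hxy⟩ := one_lt_card.1 (lt_of_lt_of_le (by norm_num : 1 < 2) hN)
  exact hl i j x y hxy (hi hx) (hi hy) (hj hx) (hj hy)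

end Pool.Agent.HypLin
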