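import Pool.Agent.HypLin.Part

/-! # HYPLIN OPT: optimal partial matchings with disjoint triples -/

set_option autoImplicit false

namespace Pool.Agent.HypLin

open Finset Pool.Agent.Hyp5

variable {V : Type*} [DecidableEq V] {ι : Type*} {B : ι → Finset V}

/-- an optimal partial matching together with the family of its deficient parts. -/
structure Opt (B : ι → Finset V) (Q : Finset V) (S : Finset ι) (d : ℕ) (A : Finset V)
    (F : Finset (Finset V)) : Prop where
  inner : ∀ i ∈ S, Inner B Q i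
  disj : ∀ i ∈ S, ∀ j ∈ S, i ≠ j → Disjoint (B i) (B j)
  sub : A ⊆ Q
  sys : FCSys (gr B) (Q \ A) F
  lk : ∀ C ∈ F, Lk B C
  card : F.card = A.card + d
  dA : Disjoint A (S.biUnion B)
  dF : ∀ C ∈ F, Disjoint C (S.biUnion B)
  rest : PM (gr B) (((Q \ S.biUnion B) \ A) \ F.biUnion id)
  restLk : Lk B (((Q \ S.biUnion B) \ A) \ F.biUnion id)
  part : Part B Q S.card d
  max : ∀ t' d', Part B Q t' d' → t' + d ≤ S.card + d' ∧ (t' + d = S.card + d' → d ≤ d')

theorem exists_opt_pair (B : ι → Finset V) (Q : Finset V) :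
    ∃ t d, Part B Q t d ∧ ∀ t' d', Part B Q t' d' →
      t' + d ≤ t + d' ∧ (t' + d = t + d' → d ≤ d') := by
  classical
  let P : Finset (ℕ × ℕ) :=
    ((range (Q.card + 1)) ×ˢ (range (Q.card + 1))).filter (fun p => Part B Q p.1 p.2)
  let f : ℕ × ℕ → ℤ := fun p => ((Q.card : ℤ) + 2) * ((p.1 : ℤ) - p.2) - p.2
  have hmem : ∀ t d, Part B Q t d → (t, d) ∈ P := by
    intro t d h
    obtain ⟨k, hk⟩ := h.parity
    refine mem_filter.2 ⟨mem_product.2 ⟨mem_range.2 ?_, mem_range.2 ?_⟩, h⟩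
    · simp only
      omega
    · simp only
      omega
  have hne : P.Nonempty := ⟨(0, Q.card), hmem _ _ (Part.of_self Q)⟩
  obtain ⟨⟨t, d⟩, htd, hmax⟩ := exists_max_image P f hne
  obtain ⟨h1, h2⟩ := mem_filter.1 htd
  simp only at h2
  have hd : d ≤ Q.card := by
    have := (mem_product.1 h1).2
    rw [mem_range] at this
    simp only at this
    omega
  refine ⟨t, d, h2, fun t' d' h => ?_⟩
  have h3 := hmax (t', d') (hmem _ _ h)
  simp only [f] at h3
  have hd' : d' ≤ Q.card := by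
    obtain ⟨k, hk⟩ := h.parity
    omega
  have e1 : (d : ℤ) ≤ Q.card := by exact_mod_cast hd
  have e2 : (d' : ℤ) ≤ Q.card := by exact_mod_cast hd'
  have e3 : (0 : ℤ) ≤ d := by positivity
  have e4 : (0 : ℤ) ≤ d' := by positivity
  have h4 : ((t' : ℤ) - d') - ((t : ℤ) - d) ≤ 0 := by
    by_contra hcon
    push Not at hcon
    have h5 : (1 : ℤ) ≤ ((t' : ℤ) - d') - ((t : ℤ) - d) := hcon
    nlinarith
  refine ⟨by omega, fun heq => ?_⟩
  have h6 : (t' : ℤ) - d' = (t : ℤ) - d := by omega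
  rw [h6] at h3
  omega

theorem part_places {A : Finset V} {F1 F4 : Finset (Finset V)} {φ : Finset V → V}
    (hfc : ∀ C ∈ F1 ∪ F4, FC (gr B) C)
    (hd : ∀ C ∈ F1 ∪ F4, ∀ D ∈ F1 ∪ F4, C ≠ D → Disjoint C D)
    (hA : ∀ C ∈ F1 ∪ F4, Disjoint C A) (h14 : Disjoint F1 F4)
    (hφ : ∀ C ∈ F1, φ C ∈ A ∧ ∃ y ∈ C, (gr B).Adj (φ C) y)
    (hinj : Set.InjOn φ (F1 : Set (Finset V))) (him : F1.image φ = A) :
    Part B (A ∪ (F1 ∪ F4).biUnion id) 0 F4.card := by
  classical
  have h1 : PM (gr B) (A ∪ F1.biUnion id) := by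
    refine pm_of_hall (fun C hC => hfc C (mem_union_left _ hC))
      (fun C hC D hD => hd C (mem_union_left _ hC) D (mem_union_left _ hD))
      (fun C hC => hA C (mem_union_left _ hC)) ?_ ?_
    · rw [← him, card_image_of_injOn hinj]
    · intro T hT
      rw [← card_image_of_injOn (hinj.mono (by exact_mod_cast hT) : Set.InjOn φ (T : Set _))]
      refine card_le_card ?_
      intro x hx
      obtain ⟨C, hC, rfl⟩ := mem_image.1 hx
      exact sysB_mem_nbr.2 ⟨(hφ C (hT hC)).1, C, hC, (hφ C (hT hC)).2⟩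
  have h2 : Part B (F4.biUnion id) (∑ C ∈ F4, 0) (∑ C ∈ F4, 1) :=
    Part.biUnion (fun C hC => Part.of_fc (hfc C (mem_union_right _ hC)))
      (fun C hC D hD => hd C (mem_union_right _ hC) D (mem_union_right _ hD))
  refine ((Part.of_pm h1).union h2 ?_).congr ?_ (by simp) (by simp)
  · rw [Finset.disjoint_left]
    intro x hx hx'
    obtain ⟨C, hC, hxC⟩ := mem_biUnion.1 hx'
    simp only [id] at hxC
    rcases mem_union.1 hx with hx | hx
    · exact Finset.disjoint_left.1 (hA C (mem_union_right _ hC)) hxC hx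
    · obtain ⟨D, hD, hxD⟩ := mem_biUnion.1 hx
      simp only [id] at hxD
      have hne : D ≠ C := by
        rintro rfl
        exact Finset.disjoint_left.1 h14 hD hC
      exact Finset.disjoint_left.1 (hd D (mem_union_left _ hD) C (mem_union_right _ hC) hne) hxD hxC
  · rw [union_biUnion, union_assoc]

/-- the deficient part given by a system with Hall's condition. -/
theorem part_assign0 {W A : Finset V} {F : Finset (Finset V)} {d : ℕ}
    (hF : FCSys (gr B) (W \ A) F) (hc : F.card = A.card + d)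
    (hall : ∀ T ⊆ F, T.card ≤ (nbr (gr B) A T).card + d) :
    Part B (A ∪ F.biUnion id) 0 d := by
  classical
  rcases isEmpty_or_nonempty V with hV | hV
  · have hFe : F = ∅ := by
      rw [Finset.eq_empty_iff_forall_notMem]
      intro C hC
      obtain ⟨v, -⟩ := (hF.fc C hC).1
      exact hV.false v
    have hAe : A = ∅ := by
      rw [Finset.eq_empty_iff_forall_notMem]
      intro v
      exact (hV.false v).elim
    have hd0 : d = 0 := by
      rw [hFe, hAe] at hc
      simp at hc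
      exact hc.symm
    rw [hFe, hAe, hd0]
    simpa using Part.of_pm (PM.empty _)
  · obtain ⟨F1, F2, F3, φ, hu, h12, h13, h23, hφ, hinj, him, hc2, hc3, hdis⟩ :=
      exists_assignment (G := gr B) (A := A) (F := F) (Fb := ∅) (d := d) (dB := 0)
        (empty_subset _) hc (Nat.zero_le _) hall (by
          intro T hT
          rw [subset_empty] at hT
          rw [hT]
          simp)
    have hF2 : F2 = ∅ := card_eq_zero.1 hc2
    subst hF2
    rw [union_empty] at hu
    have h3 : F3.card = d := by omega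
    rw [← h3, ← hu]
    refine part_places ?_ ?_ ?_ h13 hφ hinj him
    · rw [hu]
      exact hF.fc
    · rw [hu]
      exact hF.disj
    · rw [hu]
      intro C hC
      rw [Finset.disjoint_left]
      intro x hx hx'
      exact (mem_sdiff.1 ((hF.closed C hC).1 hx)).2 hx'

/-- the deficient part given by a system with Hall's condition, with one member left out. -/
theorem part_assign1 {W A : Finset V} {F Fb : Finset (Finset V)} {d dB : ℕ}
    (hF : FCSys (gr B) (W \ A) F) (hc : F.card = A.card + d) (hFb : Fb ⊆ F) (hlt : dB < d)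
    (hall : ∀ T ⊆ F, T.card ≤ (nbr (gr B) A T).card + d)
    (hallb : ∀ T ⊆ Fb, T.card ≤ (nbr (gr B) A T).card + dB) :
    ∃ C ∈ F, C ∉ Fb ∧ Part B (A ∪ (F.erase C).biUnion id) 0 (d - 1) := by
  classical
  have hne : F.Nonempty := by
    rw [← card_pos]
    omega
  obtain ⟨C', hC'⟩ := hne
  haveI : Nonempty V := (hF.fc C' hC').1.to_subtype.elim (fun x => ⟨x.1⟩)
  obtain ⟨F1, F2, F3, φ, hu, h12, h13, h23, hφ, hinj, him, hc2, hc3, hdis⟩ :=
    exists_assignment (G := gr B) hFb hc hlt.le hall hallb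
  have h3 : F3.Nonempty := by
    rw [← card_pos]
    omega
  obtain ⟨C, hC⟩ := h3
  have hCF : C ∈ F := by
    rw [← hu]
    exact mem_union_right _ hC
  have hC1 : C ∉ F1 := fun h => Finset.disjoint_left.1 h13 h hC
  have hC2 : C ∉ F2 := fun h => Finset.disjoint_left.1 h23 h hC
  have he : F.erase C = F1 ∪ (F2 ∪ F3.erase C) := by
    rw [← hu]
    ext E
    simp only [mem_erase, mem_union]
    constructor
    · rintro ⟨h1, (h2 | h2) | h2⟩
      · exact Or.inl h2
      · exact Or.inr (Or.inl h2)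
      · exact Or.inr (Or.inr ⟨h1, h2⟩)
    · rintro (h2 | h2 | ⟨h1, h2⟩)
      · exact ⟨fun h => hC1 (h ▸ h2), Or.inl (Or.inl h2)⟩
      · exact ⟨fun h => hC2 (h ▸ h2), Or.inl (Or.inr h2)⟩
      · exact ⟨h1, Or.inr h2⟩
  have hsub : F1 ∪ (F2 ∪ F3.erase C) ⊆ F := by
    rw [← he]
    exact erase_subset _ _
  refine ⟨C, hCF, fun h => Finset.disjoint_left.1 hdis hC h, ?_⟩
  have hcard : (F2 ∪ F3.erase C).card = d - 1 := by
    rw [card_union_of_disjoint (h23.mono_right (erase_subset _ _)), card_erase_of_mem hC, hc2, hc3]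
    omega
  rw [← hcard, he]
  refine part_places (fun E hE => hF.fc E (hsub hE))
    (fun E hE E' hE' => hF.disj E (hsub hE) E' (hsub hE')) ?_ ?_ hφ hinj him
  · intro E hE
    rw [Finset.disjoint_left]
    intro x hx hx'
    exact (mem_sdiff.1 ((hF.closed E (hsub hE)).1 hx)).2 hx'
  · rw [disjoint_union_right]
    exact ⟨h12, h13.mono_right (erase_subset _ _)⟩

/-- a tight subfamily of a system splits off. -/
theorem rest_of_tight {W X : Finset V} {F T : Finset (Finset V)} {d : ℕ} (hX : X ⊆ W)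
    (hF : FCSys (gr B) (W \ X) F) (hrest : PM (gr B) ((W \ X) \ F.biUnion id))
    (hc : F.card = X.card + d) (hall : ∀ T ⊆ F, T.card ≤ (nbr (gr B) X T).card + d)
    (hT : T ⊆ F) (hTc : T.card = (nbr (gr B) X T).card + d) :
    PM (gr B) ((W \ nbr (gr B) X T) \ T.biUnion id) := by
  classical
  set A := nbr (gr B) X T with hAdef
  have hAX : A ⊆ X := fun x hx => (sysB_mem_nbr.1 hx).1
  have hdX : ∀ C ∈ F, Disjoint C X := by
    intro C hC
    rw [Finset.disjoint_left]
    intro x hx hx'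
    exact (mem_sdiff.1 ((hF.closed C hC).1 hx)).2 hx'
  have h1 : PM (gr B) ((X \ A) ∪ (F \ T).biUnion id) := by
    refine pm_of_hall (fun C hC => hF.fc C (mem_sdiff.1 hC).1)
      (fun C hC D hD => hF.disj C (mem_sdiff.1 hC).1 D (mem_sdiff.1 hD).1)
      (fun C hC => (hdX C (mem_sdiff.1 hC).1).mono_right sdiff_subset) ?_ ?_
    · have e1 := card_sdiff_add_card_eq_card hT
      have e2 := card_sdiff_add_card_eq_card hAX
      omega
    · intro T' hT'
      have hTT : T ∪ T' ⊆ F := union_subset hT (hT'.trans sdiff_subset)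
      have h2 := hall (T ∪ T') hTT
      have hdis : Disjoint T T' := by
        rw [Finset.disjoint_left]
        intro C hC hC'
        exact (mem_sdiff.1 (hT' hC')).2 hC
      rw [card_union_of_disjoint hdis, sysB_nbr_union] at h2
      have h3 : nbr (gr B) X T ∪ nbr (gr B) X T' = A ∪ nbr (gr B) (X \ A) T' := by
        ext x
        rw [mem_union, mem_union, sysB_mem_nbr (X := X \ A), sysB_mem_nbr (T := T'), ← hAdef,
          mem_sdiff]
        tauto
      rw [h3] at h2
      have h4 := card_union_le A (nbr (gr B) (X \ A) T')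
      omega
  have h2 : (W \ A) \ T.biUnion id =
      ((X \ A) ∪ (F \ T).biUnion id) ∪ ((W \ X) \ F.biUnion id) := by
    ext x
    simp only [mem_sdiff, mem_union, mem_biUnion, id]
    constructor
    · rintro ⟨⟨hW, hA⟩, hT'⟩
      by_cases hxX : x ∈ X
      · exact Or.inl (Or.inl ⟨hxX, hA⟩)
      · by_cases hxF : ∃ C ∈ F, x ∈ C
        · obtain ⟨C, hC, hxC⟩ := hxF
          exact Or.inl (Or.inr ⟨C, ⟨hC, fun h => hT' ⟨C, h, hxC⟩⟩, hxC⟩)
        · exact Or.inr ⟨⟨hW, hxX⟩, hxF⟩
    · rintro ((h | ⟨C, hC, hxC⟩) | h)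
      · refine ⟨⟨hX h.1, h.2⟩, ?_⟩
        rintro ⟨C, hC, hxC⟩
        exact Finset.disjoint_left.1 (hdX C (hT hC)) hxC h.1
      · have h3 := mem_sdiff.1 ((hF.closed C hC.1).1 hxC)
        refine ⟨⟨h3.1, fun h => h3.2 (hAX h)⟩, ?_⟩
        rintro ⟨D, hD, hxD⟩
        have hne : C ≠ D := by
          rintro rfl
          exact hC.2 hD
        exact Finset.disjoint_left.1 (hF.disj C hC.1 D (hT hD) hne) hxC hxD
      · refine ⟨⟨h.1.1, fun h' => h.1.2 (hAX h')⟩, ?_⟩
        rintro ⟨C, hC, hxC⟩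
        exact h.2 ⟨C, hT hC, hxC⟩
  rw [h2]
  refine h1.union hrest ?_
  rw [Finset.disjoint_left]
  intro x hx hx'
  obtain ⟨h3, h4⟩ := mem_sdiff.1 hx'
  rcases mem_union.1 hx with hx | hx
  · exact (mem_sdiff.1 h3).2 (mem_sdiff.1 hx).1
  · obtain ⟨C, hC, hxC⟩ := mem_biUnion.1 hx
    exact h4 (mem_biUnion.2 ⟨C, (mem_sdiff.1 hC).1, hxC⟩)

end Pool.Agent.HypLin
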