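import Pool.Agent.Hyp5.GlobalHall
import Pool.Agent.Hyp5.GlobalCover
import Pool.Agent.Hyp5.SysB

/-! # HYPLIN PART: partial matchings with disjoint triples -/

set_option autoImplicit false

namespace Pool.Agent.HypLin

open Finset Pool.Agent.Hyp5

variable {V : Type*} [DecidableEq V] {ι : Type*} {B : ι → Finset V}

/-- `Q` minus `t` disjoint triples inside `Q` and minus `d` further points has a perfect matching. -/
def Part (B : ι → Finset V) (Q : Finset V) (t d : ℕ) : Prop :=
  ∃ (S : Finset ι) (D : Finset V), S.card = t ∧ D.card = d ∧ (∀ i ∈ S, Inner B Q i) ∧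
    (∀ i ∈ S, ∀ j ∈ S, i ≠ j → Disjoint (B i) (B j)) ∧ D ⊆ Q \ S.biUnion B ∧
    PM (gr B) ((Q \ S.biUnion B) \ D)

/-- no partial matching has more triples than missed points. -/
def Lk (B : ι → Finset V) (Q : Finset V) : Prop := ∀ t d, Part B Q t d → t ≤ d

/-- two distinct points lie in at most one block. -/
def Lin (B : ι → Finset V) : Prop :=
  ∀ i j x y, x ≠ y → x ∈ B i → y ∈ B i → x ∈ B j → y ∈ B j → i = j

theorem part_union_set {P Q E E' D D' : Finset V} (hd : Disjoint P Q) (hE : E ⊆ P) (hE' : E' ⊆ Q)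
    (hD : D ⊆ P) (hD' : D' ⊆ Q) :
    ((P ∪ Q) \ (E ∪ E')) \ (D ∪ D') = ((P \ E) \ D) ∪ ((Q \ E') \ D') := by
  ext x
  have h1 : x ∈ P → x ∉ Q := fun h => Finset.disjoint_left.1 hd h
  have h2 : x ∈ E → x ∈ P := fun h => hE h
  have h3 : x ∈ E' → x ∈ Q := fun h => hE' h
  have h4 : x ∈ D → x ∈ P := fun h => hD h
  have h5 : x ∈ D' → x ∈ Q := fun h => hD' h
  simp only [mem_sdiff, mem_union]
  tauto

theorem biUnion_sub {S : Finset ι} {Q : Finset V} (h : ∀ i ∈ S, Inner B Q i) :
    S.biUnion B ⊆ Q := by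
  intro x hx
  obtain ⟨i, hi, hx⟩ := mem_biUnion.1 hx
  exact (h i hi).1 hx

theorem Inner.ne {Q : Finset V} {i : ι} (h : Inner B Q i) : (B i).Nonempty := by
  rw [← card_pos, h.2]
  decide

theorem Inner.mono {P Q : Finset V} {i : ι} (h : Inner B P i) (hPQ : P ⊆ Q) : Inner B Q i :=
  ⟨h.1.trans hPQ, h.2⟩

theorem Part.union {P Q : Finset V} {t d t' d' : ℕ} (h : Part B P t d) (h' : Part B Q t' d')
    (hd : Disjoint P Q) : Part B (P ∪ Q) (t + t') (d + d') := by
  classical
  obtain ⟨S, D, hS, hD, hin, hdis, hsub, hpm⟩ := h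
  obtain ⟨S', D', hS', hD', hin', hdis', hsub', hpm'⟩ := h'
  have e1 := biUnion_sub hin
  have e2 := biUnion_sub hin'
  have hcr : ∀ i ∈ S, ∀ j ∈ S', Disjoint (B i) (B j) := fun i hi j hj =>
    (hd.mono_left (hin i hi).1).mono_right (hin' j hj).1
  have hSS : Disjoint S S' := by
    rw [Finset.disjoint_left]
    intro i hi hi'
    have h1 := hcr i hi i hi'
    rw [disjoint_self] at h1
    have h2 := Inner.ne (hin i hi)
    rw [h1] at h2
    simp at h2
  have hDP : D ⊆ P := hsub.trans sdiff_subset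
  have hDQ : D' ⊆ Q := hsub'.trans sdiff_subset
  have hDD : Disjoint D D' := (hd.mono_left hDP).mono_right hDQ
  refine ⟨S ∪ S', D ∪ D', ?_, ?_, ?_, ?_, ?_, ?_⟩
  · rw [card_union_of_disjoint hSS, hS, hS']
  · rw [card_union_of_disjoint hDD, hD, hD']
  · intro i hi
    rcases mem_union.1 hi with hi | hi
    · exact Inner.mono (hin i hi) subset_union_left
    · exact Inner.mono (hin' i hi) subset_union_right
  · intro i hi j hj hne
    rcases mem_union.1 hi with hi | hi
    · rcases mem_union.1 hj with hj | hj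
      · exact hdis i hi j hj hne
      · exact hcr i hi j hj
    · rcases mem_union.1 hj with hj | hj
      · exact (hcr j hj i hi).symm
      · exact hdis' i hi j hj hne
  · intro x hx
    rw [union_biUnion, mem_sdiff, mem_union, mem_union]
    rcases mem_union.1 hx with hx | hx
    · have h1 := mem_sdiff.1 (hsub hx)
      refine ⟨Or.inl h1.1, ?_⟩
      rintro (h2 | h2)
      · exact h1.2 h2
      · exact Finset.disjoint_left.1 hd h1.1 (e2 h2)
    · have h1 := mem_sdiff.1 (hsub' hx)
      refine ⟨Or.inr h1.1, ?_⟩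
      rintro (h2 | h2)
      · exact Finset.disjoint_left.1 hd (e1 h2) h1.1
      · exact h1.2 h2
  · rw [union_biUnion, part_union_set hd e1 e2 hDP hDQ]
    refine hpm.union hpm' ((hd.mono_left ?_).mono_right ?_)
    · exact sdiff_subset.trans sdiff_subset
    · exact sdiff_subset.trans sdiff_subset

theorem Part.of_pm {Q : Finset V} (h : PM (gr B) Q) : Part B Q 0 0 :=
  ⟨∅, ∅, rfl, rfl, by simp, by simp, by simp, by simpa using h⟩

theorem Part.of_sub {Q D : Finset V} (hD : D ⊆ Q) (h : PM (gr B) (Q \ D)) :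
    Part B Q 0 D.card :=
  ⟨∅, D, rfl, rfl, by simp, by simp, by simpa using hD, by simpa using h⟩

theorem Part.of_erase {Q : Finset V} {x : V} (hx : x ∈ Q) (h : PM (gr B) (Q.erase x)) :
    Part B Q 0 1 := by
  have := Part.of_sub (B := B) (D := {x}) (by simpa using hx) (by rwa [sdiff_singleton_eq_erase])
  simpa using this

theorem Part.of_fc {Q : Finset V} (h : FC (gr B) Q) : Part B Q 0 1 := by
  obtain ⟨⟨x, hx⟩, h2⟩ := h
  exact Part.of_erase hx (h2 x hx)

theorem Part.of_self (Q : Finset V) : Part B Q 0 Q.card :=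
  Part.of_sub (le_refl _) (by rw [sdiff_self]; exact PM.empty _)

theorem Part.of_triples {S : Finset ι} (h3 : ∀ i ∈ S, (B i).card = 3)
    (hd : ∀ i ∈ S, ∀ j ∈ S, i ≠ j → Disjoint (B i) (B j)) : Part B (S.biUnion B) S.card 0 :=
  ⟨S, ∅, rfl, rfl, fun i hi => ⟨subset_biUnion_of_mem B hi, h3 i hi⟩, hd, by simp, by
    simpa using PM.empty _⟩

theorem Part.congr {P Q : Finset V} {t d t' d' : ℕ} (h : Part B P t d) (e : P = Q) (ht : t = t')
    (hd : d = d') : Part B Q t' d' := by
  subst e
  subst ht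
  subst hd
  exact h

theorem Part.of_triple {Q : Finset V} {t d : ℕ} {i : ι} (hi : Inner B Q i)
    (h : Part B (Q \ B i) t d) : Part B Q (t + 1) d := by
  classical
  have h1 : Part B (B i) 1 0 := by
    have := Part.of_triples (B := B) (S := {i}) (by simpa using hi.2) (by
      intro a ha b hb hne
      rw [mem_singleton] at ha hb
      exact absurd (ha.trans hb.symm) hne)
    simpa using this
  refine (h.union h1 sdiff_disjoint).congr ?_ rfl (by simp)
  exact sdiff_union_of_subset hi.1

theorem Part.biUnion {F : Finset (Finset V)} {t d : Finset V → ℕ}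
    (h : ∀ C ∈ F, Part B C (t C) (d C))
    (hd : ∀ C ∈ F, ∀ D ∈ F, C ≠ D → Disjoint C D) :
    Part B (F.biUnion id) (∑ C ∈ F, t C) (∑ C ∈ F, d C) := by
  induction F using Finset.induction_on with
  | empty => simpa using Part.of_pm (PM.empty _)
  | insert C F hC ih =>
    rw [biUnion_insert, sum_insert hC, sum_insert hC]
    refine (h C (mem_insert_self _ _)).union (ih ?_ ?_) ?_
    · intro D hD
      exact h D (mem_insert_of_mem hD)
    · intro D hD E hE hDE
      exact hd D (mem_insert_of_mem hD) E (mem_insert_of_mem hE) hDE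
    · rw [Finset.disjoint_biUnion_right]
      intro D hD
      refine hd C (mem_insert_self _ _) D (mem_insert_of_mem hD) ?_
      rintro rfl
      exact hC hD

theorem Part.parity {Q : Finset V} {t d : ℕ} (h : Part B Q t d) :
    ∃ k, Q.card = 3 * t + d + 2 * k := by
  classical
  obtain ⟨S, D, hS, hD, hin, hdis, hsub, hpm⟩ := h
  obtain ⟨k, hk⟩ := hpm.even
  refine ⟨k, ?_⟩
  have h1 := card_sdiff_add_card_eq_card (biUnion_sub hin)
  have h2 := card_sdiff_add_card_eq_card hsub
  have h3 : (S.biUnion B).card = 3 * t := by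
    rw [card_biUnion (fun i hi j hj hne => hdis i hi j hj hne), sum_congr rfl (fun i hi => (hin i hi).2)]
    simp [hS, mul_comm]
  omega

/-- a cover by blocks from a partial matching. -/
theorem Part.cover [Fintype ι] {Q : Finset V} {t d : ℕ} (hr : Reg B Q) (h : Part B Q t d) :
    ∃ T : Finset ι, Q ⊆ T.biUnion B ∧ 2 * T.card + t ≤ Q.card + d := by
  classical
  have h0 := h
  obtain ⟨S, D, hS, hD, hin, hdis, hsub, hpm⟩ := h
  obtain ⟨T, hT, hTc⟩ := hpm.cover
  have hex : ∀ x ∈ D, ∃ i, x ∈ B i := by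
    intro x hx
    have h5 := hr x ((sdiff_subset (hsub hx)))
    have hne : (univ.filter (fun i => x ∈ B i)).Nonempty := by
      rw [← card_pos]; omega
    obtain ⟨i, hi⟩ := hne
    exact ⟨i, (mem_filter.1 hi).2⟩
  choose g hg using hex
  have h1 := card_sdiff_add_card_eq_card (biUnion_sub hin)
  have h2 := card_sdiff_add_card_eq_card hsub
  have h3 : (S.biUnion B).card = 3 * t := by
    rw [card_biUnion (fun i hi j hj hne => hdis i hi j hj hne), sum_congr rfl (fun i hi => (hin i hi).2)]
    simp [hS, mul_comm]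
  refine ⟨S ∪ D.attach.image (fun x => g x.1 x.2) ∪ T, ?_, ?_⟩
  · intro x hx
    rw [union_biUnion, union_biUnion, mem_union, mem_union]
    by_cases hxS : x ∈ S.biUnion B
    · exact Or.inl (Or.inl hxS)
    by_cases hxD : x ∈ D
    · exact Or.inl (Or.inr (mem_biUnion.2 ⟨g x hxD, mem_image.2 ⟨⟨x, hxD⟩, mem_attach _ _, rfl⟩,
        hg x hxD⟩))
    · exact Or.inr (hT (mem_sdiff.2 ⟨mem_sdiff.2 ⟨hx, hxS⟩, hxD⟩))
  · have c1 := card_union_le (S ∪ D.attach.image (fun x => g x.1 x.2)) T
    have c2 := card_union_le S (D.attach.image (fun x => g x.1 x.2))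
    have c3 := card_image_le (s := D.attach) (f := fun x => g x.1 x.2)
    rw [card_attach] at c3
    omega

/-- an upper bound for the number of odd closed sets. -/
theorem oddSys_card_le {G : SimpleGraph V} {W X D : Finset V} {F : Finset (Finset V)}
    (h : OddSys G (W \ X) F) (hpm : PM G (W \ D)) : F.card ≤ X.card + D.card := by
  classical
  obtain ⟨f, hf⟩ := hpm
  have hex : ∀ C ∈ F, ∃ v ∈ C, v ∈ D ∨ (v ∉ D ∧ f v ∈ X) := by
    intro C hC
    by_contra hcon
    push Not at hcon
    have hpm : PM G C := by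
      refine ⟨f, fun v hv => ?_⟩
      have h1 := hcon v hv
      have h2 := mem_sdiff.1 ((h.closed C hC).1 hv)
      obtain ⟨h3, h4, h5⟩ := hf v (mem_sdiff.2 ⟨h2.1, h1.1⟩)
      refine ⟨?_, h4, h5⟩
      exact (h.closed C hC).2 v hv (f v)
        (mem_sdiff.2 ⟨(mem_sdiff.1 h3).1, h1.2 h1.1⟩) h5
    exact (Nat.not_even_iff_odd.2 (h.odd C hC)) hpm.even
  rcases isEmpty_or_nonempty V with hV | hV
  · have : F = ∅ := by
      rw [Finset.eq_empty_iff_forall_notMem]
      intro C hC
      obtain ⟨v, -, -⟩ := hex C hC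
      exact hV.false v
    rw [this]
    simp
  choose! g hg using hex
  have hW : ∀ C ∈ F, g C ∉ D → g C ∈ W \ D := by
    intro C hC h1
    exact mem_sdiff.2 ⟨(mem_sdiff.1 ((h.closed C hC).1 (hg C hC).1)).1, h1⟩
  have h1 : F.card ≤ (X ∪ D).card := by
    refine card_le_card_of_injOn (fun C => if g C ∈ D then g C else f (g C)) ?_ ?_
    · intro C hC
      have h2 := hg C hC
      simp only [coe_union, Set.mem_union, mem_coe]
      split_ifs with h3
      · exact Or.inr h3
      · rcases h2.2 with h4 | h4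
        · exact absurd h4 h3
        · exact Or.inl h4.2
    · intro C hC C' hC' hCC
      have hC1 : C ∈ F := hC
      have hC2 : C' ∈ F := hC'
      have key : g C = g C' := by
        simp only at hCC
        split_ifs at hCC with h3 h4 h4
        · exact hCC
        · exfalso
          have h5 := (hf _ (hW C' hC2 h4)).1
          rw [← hCC] at h5
          exact (mem_sdiff.1 h5).2 h3
        · exfalso
          have h5 := (hf _ (hW C hC1 h3)).1
          rw [hCC] at h5
          exact (mem_sdiff.1 h5).2 h4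
        · rw [← (hf _ (hW C hC1 h3)).2.1, hCC, (hf _ (hW C' hC2 h4)).2.1]
      by_contra hne
      exact Finset.disjoint_left.1 (h.disj C hC1 C' hC2 hne) (hg C hC1).1 (key ▸ (hg C' hC2).1)
  exact h1.trans (card_union_le _ _)

end Pool.Agent.HypLin
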