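import Pool.Agent.HypLin.Bad

/-! # HYPLIN ZED: locked sets with a perfect matching -/

set_option autoImplicit false

namespace Pool.Agent.HypLin

open Finset Pool.Agent.Hyp5

variable {V : Type*} [DecidableEq V] {ι : Type*} [Fintype ι] [DecidableEq ι] {B : ι → Finset V}

/-- a point whose removal leaves a perfect matching after removing a triple. -/
theorem z_step1 (hs : Small B) {C : Finset V} (hr : Reg B C) (hPB : PB B C) (hPZ : PZ B C)
    (hlk : Lk B C) (hlt : 2 * NN B C < C.card) {i : ι} (hi : Inner B C i) {w : V}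
    (hw : w ∈ C \ B i) (hpm : PM (gr B) ((C \ B i).erase w)) : nbh B C w ⊆ B i := by
  obtain ⟨A, F, ho⟩ := opt_triple hlk hi (Part.of_erase hw hpm) (by norm_num)
  have hmain := main_ineq hs hr hPB hPZ hi ho
  have hFc := ho.card
  have hA : A.card = 0 := by omega
  have hq : (F.filter (fun C => 3 ≤ C.card)).card = 0 := by omega
  rw [hA] at hFc
  rw [card_eq_zero] at hA hq
  obtain ⟨K, hK⟩ := card_eq_one.1 hFc
  have hKF : K ∈ F := by rw [hK]; exact mem_singleton_self K
  have h3 : ¬ 3 ≤ K.card := by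
    intro h
    have : K ∈ F.filter (fun C => 3 ≤ C.card) := mem_filter.2 ⟨hKF, h⟩
    rw [hq] at this
    simp at this
  obtain ⟨k, hk⟩ := (ho.sys.fc K hKF).odd
  obtain ⟨u, hu⟩ := card_eq_one.1 (show K.card = 1 by omega)
  have hcl := ho.sys.closed K hKF
  rw [hA, sdiff_empty, hu] at hcl
  have huC : u ∈ C \ B i := hcl.1 (mem_singleton_self u)
  have huw : u = w := by
    by_contra hne
    obtain ⟨g, hg⟩ := hpm
    obtain ⟨h4, -, h5⟩ := hg u (mem_erase.2 ⟨hne, huC⟩)
    have h6 := hcl.2 u (mem_singleton_self u) (g u) (mem_of_mem_erase h4) h5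
    rw [mem_singleton] at h6
    exact h5.ne h6.symm
  intro v hv
  obtain ⟨h4, h5⟩ := mem_nbh.1 hv
  by_contra h6
  have h7 := hcl.2 u (mem_singleton_self u) v (mem_sdiff.2 ⟨h4, h6⟩) (huw ▸ h5)
  rw [mem_singleton, huw] at h7
  exact h5.ne h7.symm

/-- the matching between the members of a system and the removed points. -/
theorem z_bij [Nonempty V] {C X : Finset V} {F : Finset (Finset V)} {f : V → V}
    (hf : ∀ v ∈ C, f v ∈ C ∧ f (f v) = v ∧ (gr B).Adj v (f v))
    (hF : FCSys (gr B) (C \ X) F) (hc : F.card = X.card) :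
    ∃ g : Finset V → V, (∀ K ∈ F, g K ∈ K ∧ f (g K) ∈ X) ∧
      (∀ x ∈ X, ∃ K ∈ F, f (g K) = x) ∧ (∀ K ∈ F, ∀ v ∈ K, f v ∈ K ∨ f v = f (g K)) := by
  classical
  have hKC : ∀ K ∈ F, ∀ v ∈ K, v ∈ C ∧ v ∉ X := fun K hK v hv =>
    mem_sdiff.1 ((hF.closed K hK).1 hv)
  have hex : ∀ K ∈ F, ∃ v ∈ K, f v ∈ X := by
    intro K hK
    by_contra hcon
    push Not at hcon
    have hpm : PM (gr B) K := by
      refine ⟨f, fun v hv => ?_⟩
      obtain ⟨h1, h2, h3⟩ := hf v (hKC K hK v hv).1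
      exact ⟨(hF.closed K hK).2 v hv (f v) (mem_sdiff.2 ⟨h1, hcon v hv⟩) h3, h2, h3⟩
    exact (Nat.not_even_iff_odd.2 (hF.fc K hK).odd) hpm.even
  choose! g hg using hex
  have hinj : Set.InjOn (fun K => f (g K)) (F : Set (Finset V)) := by
    intro K hK K' hK' hKK
    have hK1 : K ∈ F := hK
    have hK2 : K' ∈ F := hK'
    simp only at hKK
    have h1 : g K = g K' := by
      rw [← (hf _ (hKC K hK1 _ (hg K hK1).1).1).2.1, hKK, (hf _ (hKC K' hK2 _ (hg K' hK2).1).1).2.1]
    by_contra hne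
    exact Finset.disjoint_left.1 (hF.disj K hK1 K' hK2 hne) (hg K hK1).1 (h1 ▸ (hg K' hK2).1)
  have hsurj := surjOn_of_injOn_of_card_le (s := F) (t := X) (fun K => f (g K))
    (fun K hK => (hg K hK).2) hinj (le_of_eq hc.symm)
  have hs : ∀ x ∈ X, ∃ K ∈ F, f (g K) = x := by
    intro x hx
    obtain ⟨K, hK, hKx⟩ := hsurj (mem_coe.2 hx)
    exact ⟨K, hK, hKx⟩
  refine ⟨g, hg, hs, fun K hK v hv => ?_⟩
  obtain ⟨h1, h2, h3⟩ := hf v (hKC K hK v hv).1
  by_cases hX : f v ∈ X
  · right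
    obtain ⟨K', hK', hKx⟩ := hs _ hX
    have h4 : v = g K' := by
      rw [← h2, ← hKx, (hf _ (hKC K' hK' _ (hg K' hK').1).1).2.1]
    have h5 : K = K' := by
      by_contra hne
      exact Finset.disjoint_left.1 (hF.disj K hK K' hK' hne) hv (h4 ▸ (hg K' hK').1)
    rw [h5, hKx]
  · left
    exact (hF.closed K hK).2 v hv (f v) (mem_sdiff.2 ⟨h1, hX⟩) h3

/-- a factor-critical set which is not locked, together with a point outside. -/
theorem z_not_lk {C K : Finset V} {f : V → V}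
    (hf : ∀ v ∈ C, f v ∈ C ∧ f (f v) = v ∧ (gr B).Adj v (f v)) (hlk : Lk B C) (hK : K ⊆ C)
    (hfc : FC (gr B) K) (hKlk : ¬ Lk B K) {y : V} (hy : y ∈ K) (hfy : f y ∉ K)
    (hKf : ∀ v ∈ K, f v ∈ K ∨ f v = f y) :
    ∃ i, Inner B K i ∧ PM (gr B) ((C \ B i).erase (f y)) := by
  have hyC := hf y (hK hy)
  -- the matching outside of `K`
  have hout : PM (gr B) ((C \ K).erase (f y)) := by
    refine ⟨f, fun v hv => ?_⟩
    obtain ⟨h1, h2⟩ := mem_erase.1 hv
    obtain ⟨h3, h4⟩ := mem_sdiff.1 h2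
    obtain ⟨h5, h6, h7⟩ := hf v h3
    refine ⟨mem_erase.2 ⟨?_, mem_sdiff.2 ⟨h5, ?_⟩⟩, h6, h7⟩
    · intro h8
      have h9 : v = y := by rw [← h6, h8, hyC.2.1]
      exact h4 (h9 ▸ hy)
    · intro h8
      rcases hKf _ h8 with h9 | h9
      · rw [h6] at h9
        exact h4 h9
      · rw [h6] at h9
        exact h1 h9
  obtain ⟨S, d, A, F, ho⟩ := exists_opt B K
  have hA : A = ∅ := by
    rcases A.eq_empty_or_nonempty with h | h
    · exact h
    · exfalso
      have h1 := hfc.sys_le ho.sub h ho.sys.oddSys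
      have h2 := ho.card
      omega
  have hFc := ho.card
  subst hA
  have hF : F = ∅ := by
    rw [Finset.eq_empty_iff_forall_notMem]
    intro K' hK'
    have h1 := ho.sys.closed K' hK'
    rw [sdiff_empty] at h1
    have h2 := hfc.conn h1 (ho.sys.fc K' hK').1
    exact hKlk (h2 ▸ ho.lk K' hK')
  subst hF
  rw [card_empty, card_empty] at hFc
  have hd : d = 0 := by omega
  subst hd
  have hrest := ho.rest
  rw [biUnion_empty, sdiff_empty, sdiff_empty] at hrest
  have h1 : 1 ≤ S.card := by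
    unfold Lk at hKlk
    push Not at hKlk
    obtain ⟨t0, d0, hp, htd⟩ := hKlk
    have := (ho.max _ _ hp).1
    omega
  have hfyC : f y ∈ C \ K := mem_sdiff.2 ⟨hyC.1, hfy⟩
  have h2 : Part B C (S.card + 0) (0 + 1) :=
    (ho.part.union (Part.of_erase hfyC hout) disjoint_sdiff).congr
      (union_sdiff_of_subset hK) rfl rfl
  have h3 := hlk _ _ h2
  obtain ⟨i, hi⟩ := card_eq_one.1 (show S.card = 1 by omega)
  subst hi
  rw [singleton_biUnion] at hrest
  have hin := ho.inner i (mem_singleton_self i)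
  refine ⟨i, hin, ?_⟩
  have h4 : (C \ B i).erase (f y) = (K \ B i) ∪ (C \ K).erase (f y) := by
    ext x
    have h5 : x ∈ B i → x ∈ K := fun h => hin.1 h
    have h6 : x ∈ K → x ∈ C := fun h => hK h
    have h7 : x = f y → x ∉ K := fun h => h ▸ hfy
    simp only [mem_erase, mem_sdiff, mem_union, ne_eq]
    tauto
  rw [h4]
  refine hrest.union hout ?_
  rw [Finset.disjoint_left]
  intro x hx hx'
  exact (mem_sdiff.1 (mem_of_mem_erase hx')).2 (mem_sdiff.1 hx).1

/-- every point has all its neighbours in a triple. -/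
theorem z_step2 (hs : Small B) {C : Finset V} (hr : Reg B C) (hPB : PB B C) (hPZ : PZ B C)
    (hpm : PM (gr B) C) (hlk : Lk B C) (hlt : 2 * NN B C < C.card) {w : V} (hw : w ∈ C) :
    (nbh B C w).card ≤ 3 := by
  classical
  haveI : Nonempty V := ⟨w⟩
  have hev := hpm.even
  obtain ⟨f, hf⟩ := hpm
  obtain ⟨X, F, hwX, hXC, hF, hrest, hm⟩ := exists_sys (gr B) C {w} (by simpa using hw)
  rw [singleton_subset_iff] at hwX
  have hge : X.card ≤ F.card := by
    have h1 : OddSys (gr B) (C \ {w}) {C.erase w} := by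
      refine ⟨?_, ?_, ?_⟩
      · intro K hK
        rw [mem_singleton] at hK
        rw [hK, sdiff_singleton_eq_erase]
        exact ⟨le_refl _, fun _ _ y hy _ => hy⟩
      · intro K hK
        rw [mem_singleton] at hK
        rw [hK, card_erase_of_mem hw]
        obtain ⟨k, hk⟩ := hev
        have : 0 < C.card := card_pos.2 ⟨w, hw⟩
        exact ⟨k - 1, by omega⟩
      · intro K hK K' hK' hne
        rw [mem_singleton] at hK hK'
        exact absurd (hK.trans hK'.symm) hne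
    have h2 := hm {w} {C.erase w} (le_refl _) (by simpa using hw) h1
    rw [card_singleton, card_singleton] at h2
    omega
  have hle : F.card ≤ X.card := by
    have := oddSys_card_le (D := ∅) hF.oddSys (by rw [sdiff_empty]; exact ⟨f, hf⟩)
    simpa using this
  have hc : F.card = X.card := le_antisymm hle hge
  obtain ⟨g, hg, hsurj, hKf⟩ := z_bij hf hF hc
  have hKC : ∀ K ∈ F, ∀ v ∈ K, v ∈ C ∧ v ∉ X := fun K hK v hv =>
    mem_sdiff.1 ((hF.closed K hK).1 hv)
  have hgf : ∀ K ∈ F, f (f (g K)) = g K := fun K hK => (hf _ (hKC K hK _ (hg K hK).1).1).2.1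
  -- the neighbours of the partners of the members which are not locked
  have hnl : ∀ K ∈ F, ¬ Lk B K → ∃ i, B i ⊆ K ∧ nbh B C (f (g K)) ⊆ B i := by
    intro K hK hKlk
    have hKsub : K ⊆ C := fun v hv => (hKC K hK v hv).1
    have hfK : f (g K) ∉ K := fun h => (hKC K hK _ h).2 (hg K hK).2
    obtain ⟨i, hi, hpi⟩ := z_not_lk hf hlk hKsub (hF.fc K hK) hKlk (hg K hK).1 hfK (hKf K hK)
    refine ⟨i, hi.1, ?_⟩
    refine z_step1 hs hr hPB hPZ hlk hlt (Inner.mono hi hKsub) ?_ hpi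
    exact mem_sdiff.2 ⟨hXC (hg K hK).2, fun h => hfK (hi.1 h)⟩
  -- the locked members
  set F' := F.filter (fun K => Lk B K) with hF'
  set X' := F'.image (fun K => f (g K)) with hX'
  have hF'F : F' ⊆ F := filter_subset _ _
  have hX'X : X' ⊆ X := by
    intro x hx
    obtain ⟨K, hK, rfl⟩ := mem_image.1 hx
    exact (hg K (hF'F hK)).2
  have hc' : X'.card = F'.card := by
    rw [hX']
    refine card_image_of_injOn ?_
    intro K hK K' hK' hKK
    have hK1 : K ∈ F := hF'F hK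
    have hK2 : K' ∈ F := hF'F hK'
    simp only at hKK
    have h1 : g K = g K' := by rw [← hgf K hK1, hKK, hgf K' hK2]
    by_contra hne
    exact Finset.disjoint_left.1 (hF.disj K hK1 K' hK2 hne) (hg K hK1).1 (h1 ▸ (hg K' hK2).1)
  have hsys : FCSys (gr B) (C \ X') F' := by
    refine ⟨?_, fun K hK => hF.fc K (hF'F hK),
      fun K hK K' hK' => hF.disj K (hF'F hK) K' (hF'F hK')⟩
    intro K hK
    have hKF := hF'F hK
    refine ⟨?_, ?_⟩
    · intro v hv
      obtain ⟨h1, h2⟩ := hKC K hKF v hv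
      exact mem_sdiff.2 ⟨h1, fun h => h2 (hX'X h)⟩
    · intro v hv y hy hvy
      obtain ⟨h1, h2⟩ := mem_sdiff.1 hy
      by_cases hyX : y ∈ X
      · exfalso
        obtain ⟨K1, hK1, hK1y⟩ := hsurj y hyX
        have hnlk : ¬ Lk B K1 := by
          intro h
          exact h2 (mem_image.2 ⟨K1, mem_filter.2 ⟨hK1, h⟩, hK1y⟩)
        obtain ⟨i, hi, hni⟩ := hnl K1 hK1 hnlk
        have h3 : v ∈ K1 := hi (hni (mem_nbh.2 ⟨(hKC K hKF v hv).1, hK1y ▸ hvy.symm⟩))
        have hne : K ≠ K1 := by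
          rintro rfl
          exact hnlk (mem_filter.1 hK).2
        exact Finset.disjoint_left.1 (hF.disj K hKF K1 hK1 hne) hv h3
      · exact (hF.closed K hKF).2 v hv y (mem_sdiff.2 ⟨h1, hyX⟩) hvy
  have hX'C : X' ⊆ C := hX'X.trans hXC
  have hUC : F'.biUnion id ⊆ C \ X' := by
    intro v hv
    obtain ⟨K, hK, hvK⟩ := mem_biUnion.1 hv
    exact (hsys.closed K hK).1 hvK
  -- the part of the locked members
  have hfU : ∀ v ∈ X' ∪ F'.biUnion id, f v ∈ X' ∪ F'.biUnion id := by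
    intro v hv
    rcases mem_union.1 hv with hv | hv
    · obtain ⟨K, hK, hKv⟩ := mem_image.1 hv
      refine mem_union_right _ (mem_biUnion.2 ⟨K, hK, ?_⟩)
      rw [← hKv, hgf K (hF'F hK)]
      exact (hg K (hF'F hK)).1
    · obtain ⟨K, hK, hvK⟩ := mem_biUnion.1 hv
      rcases hKf K (hF'F hK) v hvK with h | h
      · exact mem_union_right _ (mem_biUnion.2 ⟨K, hK, h⟩)
      · refine mem_union_left _ (mem_image.2 ⟨K, hK, h.symm⟩)
  have hUsub : X' ∪ F'.biUnion id ⊆ C := union_subset hX'C (hUC.trans sdiff_subset)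
  have hpmU : PM (gr B) (X' ∪ F'.biUnion id) :=
    ⟨f, fun v hv => ⟨hfU v hv, (hf v (hUsub hv)).2⟩⟩
  have hR : (C \ X') \ F'.biUnion id = C \ (X' ∪ F'.biUnion id) := by
    rw [sdiff_sdiff_left]
    rfl
  have hpmR : PM (gr B) ((C \ X') \ F'.biUnion id) := by
    rw [hR]
    refine ⟨f, fun v hv => ?_⟩
    obtain ⟨h1, h2⟩ := mem_sdiff.1 hv
    obtain ⟨h3, h4, h5⟩ := hf v h1
    refine ⟨mem_sdiff.2 ⟨h3, fun h => h2 ?_⟩, h4, h5⟩
    rw [← h4]
    exact hfU _ h
  have hlkR : Lk B ((C \ X') \ F'.biUnion id) := by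
    intro t d h
    rw [hR] at h
    have h1 : Part B C (t + 0) (d + 0) :=
      (h.union (Part.of_pm hpmU) sdiff_disjoint).congr (sdiff_union_of_subset hUsub) rfl rfl
    exact hlk _ _ h1
  have hX'e : X' = ∅ := by
    rcases X'.eq_empty_or_nonempty with h | h
    · exact h
    · exfalso
      obtain ⟨x, hx⟩ := h
      have hxC := hX'C hx
      have h1 := sys_lower hs hr hPB hPZ (W := C) (A := X') (F := F')
        (fun K hK => ⟨FCSys.sub_of hsys hK, fun h =>
          (mem_sdiff.1 ((hsys.closed K hK).1 (h hxC))).2 hx⟩)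
        ⟨sdiff_subset.trans sdiff_subset, fun h => (mem_sdiff.1 (mem_sdiff.1 (h hxC)).1).2 hx⟩
        hX'C hsys (fun K hK => (mem_filter.1 hK).2) rfl hpmR hlkR
      have h2 := NN_sdiff hs hX'C (fun v hv => hr v (hX'C hv))
      have h3 : 1 ≤ X'.card := card_pos.2 ⟨x, hx⟩
      omega
  have hF'e : F' = ∅ := by
    rw [← card_eq_zero, ← hc', hX'e]
    rfl
  obtain ⟨K, hK, hKw⟩ := hsurj w hwX
  have hnlk : ¬ Lk B K := by
    intro h
    have : K ∈ F' := mem_filter.2 ⟨hK, h⟩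
    rw [hF'e] at this
    simp at this
  obtain ⟨i, hi, hni⟩ := hnl K hK hnlk
  rw [← hKw]
  exact (card_le_card hni).trans (hs i)

/-- the bound for locked sets with a perfect matching, induction step. -/
theorem stepZ (hs : Small B) (hl : Lin B) {C : Finset V} (hr : Reg B C) (hPB : PB B C)
    (hPZ : PZ B C) (hpm : PM (gr B) C) (hlk : Lk B C) : C.card ≤ 2 * NN B C := by
  by_contra hcon
  push Not at hcon
  have h1 := deg_sum hs hl hr
  have h2 : ∑ u ∈ C, (nbh B C u).card ≤ C.card * 3 := by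
    rw [← smul_eq_mul, ← sum_const]
    exact sum_le_sum (fun u hu => z_step2 hs hr hPB hPZ hpm hlk hcon hu)
  omega

/-- both bounds. -/
theorem bounds (hs : Small B) (hl : Lin B) : ∀ (n : ℕ) (Q : Finset V), Q.card = n → Reg B Q →
    (FC (gr B) Q → Lk B Q → 3 ≤ Q.card → Q.card + 27 ≤ 2 * NN B Q) ∧
    (PM (gr B) Q → Lk B Q → Q.card ≤ 2 * NN B Q) := by
  intro n
  induction n using Nat.strong_induction_on with
  | _ n ih =>
  intro Q hQ hr
  have hPB : PB B Q := fun C hC hfc hlk h3 =>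
    (ih C.card (by rw [← hQ]; exact card_lt_card hC) C rfl (fun v hv => hr v (hC.1 hv))).1
      hfc hlk h3
  have hPZ : PZ B Q := fun C hC hpm hlk =>
    (ih C.card (by rw [← hQ]; exact card_lt_card hC) C rfl (fun v hv => hr v (hC.1 hv))).2
      hpm hlk
  exact ⟨fun hfc hlk h3 => stepB hs hl hr hPB hPZ hfc hlk h3,
    fun hpm hlk => stepZ hs hl hr hPB hPZ hpm hlk⟩

end Pool.Agent.HypLin
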